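import Mathlib

set_option autoImplicit false

/-! Identities for cubics `x^3 + b x + c` over a field: the norm form, the seven-term Pell identity,
the four-term identity, duplication. -/

namespace Pool.Agent.Lib.MP_648c71_nt.AllCub

variable {K : Type*} [Field K]

/-- The cubic. -/
def fc (b c x : K) : K := x ^ 3 + b * x + c

/-- The norm of `A θ^2 + B θ + C`, where `θ^3 + b θ + c = 0`. -/
def N3 (b c A B C : K) : K :=
  c ^ 2 * A ^ 3 - c * B ^ 3 + C ^ 3 - b * c * A ^ 2 * B + b ^ 2 * A ^ 2 * C - 2 * b * A * C ^ 2 +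
    b * B ^ 2 * C + 3 * c * A * B * C

/-- Multiplicativity of the norm form. -/
theorem N3_mul (b c A B C A' B' C' : K) :
    N3 b c A B C * N3 b c A' B' C' =
      N3 b c (A * C' + B * B' + C * A' - b * A * A')
        (B * C' + C * B' - b * (A * B' + B * A') - c * A * A')
        (C * C' - c * (A * B' + B * A')) := by
  unfold N3
  ring

theorem N3_smul (b c k A B C : K) : N3 b c (k * A) (k * B) (k * C) = k ^ 3 * N3 b c A B C := by
  unfold N3
  ring

/-- `N(k (Y - θ)) = k^3 f(Y)`. -/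
theorem N3_lin (b c k Y : K) : N3 b c 0 (-k) (k * Y) = k ^ 3 * fc b c Y := by
  unfold N3 fc
  ring

/-- `N((θ - x)(θ - y)) = f(x) f(y)`. -/
theorem N3_two (b c x y : K) : N3 b c 1 (-(x + y)) (x * y) = fc b c x * fc b c y := by
  unfold N3 fc
  ring

/-- Two quadratic elements with the same linear coefficient. -/
theorem N3_pair (b c u w w' : K) :
    N3 b c 1 u w * N3 b c 1 u w' =
      N3 b c (w + w' + u ^ 2 - b) (u * (w + w' + u ^ 2 - b) - fc b c u) (w * w' - 2 * u * c) := by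
  rw [N3_mul]
  congr 1
  · ring
  · unfold fc
    ring
  · ring

/-- The seven-term Pell identity. -/
theorem seven_term (b c u v X : K) (h3 : (3 : K) ≠ 0) (h2 : (2 : K) ≠ 0) (hu : u ≠ 0)
    (hfu : fc b c u ≠ 0) (hf2 : fc b c (-2 * u) ≠ 0) (m : K) (hm : m = -fc b c u / (3 * u))
    (hX : X ^ 2 - 4 * m * v ^ 2 = (m + (3 * u ^ 2 + b)) ^ 2) (w Y1 Y2 Y3 : K)
    (hw : w = (X + m + b - u ^ 2) / 2)
    (hY1 : Y1 = (w * (b - u ^ 2 - w) - 2 * u * c) / fc b c u)
    (hY2 : Y2 = ((w - m) * (b - u ^ 2 - w + m) - 2 * u * c) / fc b c u)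
    (hY3 : Y3 = ((b - 5 * u ^ 2 + v ^ 2) * (u ^ 2 - v ^ 2) + 4 * u * c) / fc b c (-2 * u)) :
    fc b c u ^ 6 * fc b c Y1 * fc b c Y2 * fc b c (u + v) * fc b c (u - v) =
      -m ^ 6 * fc b c (-2 * u) ^ 3 * fc b c (v - 2 * u) * fc b c (-v - 2 * u) * fc b c Y3 := by
  have hF : fc b c u = -(3 * u * m) := by
    rw [hm]
    field_simp
  have e1 : N3 b c 1 u w * N3 b c 1 u (b - u ^ 2 - w) = fc b c u ^ 3 * fc b c Y1 := by
    rw [N3_pair, ← N3_lin]
    congr 1
    · ring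
    · ring
    · rw [hY1]
      field_simp
  have e2 : N3 b c 1 u (w - m) * N3 b c 1 u (b - u ^ 2 - w + m) = fc b c u ^ 3 * fc b c Y2 := by
    rw [N3_pair, ← N3_lin]
    congr 1
    · ring
    · ring
    · rw [hY2]
      field_simp
  have hXw : 2 * w = X + m + b - u ^ 2 := by
    rw [hw]
    field_simp
  have hc : c = -(3 * u * m) - u ^ 3 - b * u := by
    have : fc b c u = u ^ 3 + b * u + c := rfl
    rw [hF] at this
    linear_combination -this
  have e3 : N3 b c 1 u w * N3 b c 1 u (b - u ^ 2 - w + m) =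
      m ^ 3 * (fc b c (v - 2 * u) * fc b c (-v - 2 * u)) := by
    rw [N3_pair, ← N3_two, ← N3_smul]
    congr 1
    · ring
    · rw [hF]
      ring
    · have h4 : (4 : K) ≠ 0 := by
        have : (4 : K) = 2 * 2 := by norm_num
        rw [this]
        exact mul_ne_zero h2 h2
      apply mul_left_cancel₀ h4
      rw [hc]
      have hX' : X = 2 * w - m - b + u ^ 2 := by linear_combination -hXw
      rw [hX'] at hX
      linear_combination -hX
  have e4 : N3 b c 1 u (w - m) * N3 b c 1 u (b - u ^ 2 - w) =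
      -m ^ 3 * N3 b c 1 (-2 * u) (b - 5 * u ^ 2 + v ^ 2) := by
    have : -m ^ 3 * N3 b c 1 (-2 * u) (b - 5 * u ^ 2 + v ^ 2) =
        N3 b c (-m * 1) (-m * (-2 * u)) (-m * (b - 5 * u ^ 2 + v ^ 2)) := by
      rw [N3_smul]
      ring
    rw [N3_pair, this]
    congr 1
    · ring
    · rw [hF]
      ring
    · have h4 : (4 : K) ≠ 0 := by
        have : (4 : K) = 2 * 2 := by norm_num
        rw [this]
        exact mul_ne_zero h2 h2
      apply mul_left_cancel₀ h4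
      rw [hc]
      have hX' : X = 2 * w - m - b + u ^ 2 := by linear_combination -hXw
      rw [hX'] at hX
      linear_combination -hX
  have e5 : N3 b c 1 (-2 * u) (b - 5 * u ^ 2 + v ^ 2) * (fc b c (u + v) * fc b c (u - v)) =
      fc b c (-2 * u) ^ 3 * fc b c Y3 := by
    rw [← N3_two, show -((u + v) + (u - v)) = -2 * u by ring, N3_pair, ← N3_lin]
    congr 1
    · ring
    · ring
    · rw [hY3, mul_div_cancel₀ _ hf2]
      ring
  calc fc b c u ^ 6 * fc b c Y1 * fc b c Y2 * fc b c (u + v) * fc b c (u - v)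
      = (fc b c u ^ 3 * fc b c Y1) * (fc b c u ^ 3 * fc b c Y2) *
          (fc b c (u + v) * fc b c (u - v)) := by ring
    _ = (N3 b c 1 u w * N3 b c 1 u (b - u ^ 2 - w + m)) *
          (N3 b c 1 u (w - m) * N3 b c 1 u (b - u ^ 2 - w)) *
          (fc b c (u + v) * fc b c (u - v)) := by
        rw [← e1, ← e2]
        ring
    _ = -m ^ 6 * (fc b c (v - 2 * u) * fc b c (-v - 2 * u)) *
          (N3 b c 1 (-2 * u) (b - 5 * u ^ 2 + v ^ 2) * (fc b c (u + v) * fc b c (u - v))) := by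
        rw [e3, e4]
        ring
    _ = _ := by
        rw [e5]
        ring

/-- The four-term identity: `x`, `s - x`, `-s` have sum zero. -/
theorem four_term (b c s x y : K) (hq : s ^ 2 + b - x * (s - x) ≠ 0)
    (hy : y = (s * (x * (s - x)) - c) / (s ^ 2 + b - x * (s - x))) :
    fc b c x * fc b c (s - x) * fc b c (-s) = -(s ^ 2 + b - x * (s - x)) ^ 3 * fc b c y := by
  have h : (s ^ 2 + b - x * (s - x)) * y = s * (x * (s - x)) - c := by
    rw [hy]
    field_simp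
  have h1 : (s ^ 2 + b - x * (s - x)) ^ 3 * fc b c y =
      ((s ^ 2 + b - x * (s - x)) * y) ^ 3 +
        b * (s ^ 2 + b - x * (s - x)) ^ 2 * ((s ^ 2 + b - x * (s - x)) * y) +
        c * (s ^ 2 + b - x * (s - x)) ^ 3 := by
    unfold fc
    ring
  rw [neg_mul, h1, h]
  unfold fc
  ring

/-- The quadratic of the four-term identity. -/
theorem four_quad (b s x : K) (h2 : (2 : K) ≠ 0) :
    s ^ 2 + b - x * (s - x) = (x - s / 2) ^ 2 + (3 * s ^ 2 / 4 + b) := by
  have h4 : (4 : K) ≠ 0 := by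
    have : (4 : K) = 2 * 2 := by norm_num
    rw [this]
    exact mul_ne_zero h2 h2
  field_simp
  ring

/-- Duplication. -/
theorem dup (b c u : K) (h2 : (2 : K) ≠ 0) (hfu : fc b c u ≠ 0) (D : K)
    (hD : D = (u ^ 4 - 2 * b * u ^ 2 - 8 * c * u + b ^ 2) / (4 * fc b c u)) :
    fc b c D * (64 * fc b c u ^ 3) =
      (u ^ 6 + 5 * b * u ^ 4 + 20 * c * u ^ 3 - 5 * b ^ 2 * u ^ 2 - 4 * b * c * u - 8 * c ^ 2 -
        b ^ 3) ^ 2 := by
  have h4 : (4 : K) ≠ 0 := by
    have : (4 : K) = 2 * 2 := by norm_num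
    rw [this]
    exact mul_ne_zero h2 h2
  have h : 4 * fc b c u * D = u ^ 4 - 2 * b * u ^ 2 - 8 * c * u + b ^ 2 := by
    rw [hD]
    field_simp
  have h1 : fc b c D * (64 * fc b c u ^ 3) =
      (4 * fc b c u * D) ^ 3 + b * (4 * fc b c u * D) * (4 * fc b c u) ^ 2 +
        c * (4 * fc b c u) ^ 3 := by
    have : fc b c D = D ^ 3 + b * D + c := rfl
    rw [this]
    ring
  rw [h1, h]
  unfold fc
  ring

/-- The substitution of the last step. -/
theorem quad_mul (D t n : K) (h : n + t ≠ 0) :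
    (((t * n - D) / (n + t)) ^ 2 + D) * (n + t) ^ 2 = (t ^ 2 + D) * (n ^ 2 + D) := by
  field_simp
  ring


/-! Lemma (A): small arguments, from the seven-term Pell identity. -/

section LemA

/-- A completely multiplicative function with values `±1` off `0`. -/
structure GMul (g : ℚ → ℤ) : Prop where
  mul : ∀ x y, g (x * y) = g x * g y
  sq : ∀ x, x ≠ 0 → g x * g x = 1

/-- `g (f s) = k` for all large `|s|` of bounded denominator. -/
def Hyp (g : ℚ → ℤ) (b c : ℚ) (k : ℤ) : Prop :=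
  ∀ Q : ℕ, 0 < Q → ∃ R : ℚ, ∀ s : ℚ, s.den ∣ Q → R ≤ |s| → g (fc b c s) = k

theorem GMul.pow_two {g : ℚ → ℤ} (hg : GMul g) {x : ℚ} (hx : x ≠ 0) : g (x ^ 2) = 1 := by
  rw [_root_.pow_two, hg.mul, hg.sq x hx]

/-- Arbitrarily large solutions of the Pell equation. -/
theorem pell_large (d : ℤ) (hd : 0 < d) (hns : ¬ IsSquare d) (B : ℕ) :
    ∃ x y : ℤ, (B : ℤ) ≤ x ∧ (B : ℤ) ≤ y ∧ x ^ 2 - d * y ^ 2 = 1 := by
  obtain ⟨x0, y0, h0, hy0⟩ := Pell.exists_of_not_isSquare hd hns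
  have hy1 : 1 ≤ |y0| := Int.one_le_abs hy0
  have h1 : |x0| ^ 2 - d * |y0| ^ 2 = 1 := by rw [sq_abs, sq_abs, h0]
  obtain ⟨a, ha⟩ : ∃ a, a = |x0| := ⟨_, rfl⟩
  obtain ⟨e, he⟩ : ∃ e, e = |y0| := ⟨_, rfl⟩
  have ha0 : 0 ≤ a := by rw [ha]; exact abs_nonneg _
  rw [← ha, ← he] at h1
  rw [← he] at hy1
  have ha2 : 2 ≤ a := by
    by_contra hc
    have : a ≤ 1 := by omega
    have h2 : a ^ 2 ≤ 1 := by nlinarith
    have h3 : 1 ≤ d * e ^ 2 := by nlinarith [mul_pos hd (show 0 < e ^ 2 by positivity)]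
    linarith
  induction B with
  | zero => exact ⟨a, e, by simpa using ha0, by simp; omega, h1⟩
  | succ B ih =>
    obtain ⟨x, y, hx, hy, hxy⟩ := ih
    have hB : (0 : ℤ) ≤ B := Int.natCast_nonneg B
    have hx' : 0 ≤ x := le_trans hB hx
    have hy' : 0 ≤ y := le_trans hB hy
    have hxp : 1 ≤ x := by
      by_contra hc
      have : x = 0 := by omega
      rw [this] at hxy
      nlinarith [sq_nonneg y]
    have t1 : 0 ≤ d * y * e := by positivity
    have t2 : x * 2 ≤ x * a := mul_le_mul_of_nonneg_left ha2 hx'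
    have t3 : y * 2 ≤ y * a := mul_le_mul_of_nonneg_left ha2 hy'
    have t4 : x * 1 ≤ x * e := mul_le_mul_of_nonneg_left hy1 hx'
    refine ⟨x * a + d * y * e, x * e + y * a, ?_, ?_, ?_⟩
    · push_cast
      linarith
    · push_cast
      linarith
    · have : (x * a + d * y * e) ^ 2 - d * (x * e + y * a) ^ 2 =
          (x ^ 2 - d * y ^ 2) * (a ^ 2 - d * e ^ 2) := by ring
      rw [this, hxy, h1, one_mul]

/-- Bounded denominators. -/
def BD {ι : Type*} (F : ι → ℚ) : Prop := ∃ N : ℕ, 0 < N ∧ ∀ i, (F i).den ∣ N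

theorem BD.const {ι : Type*} (q : ℚ) : BD (fun _ : ι => q) := ⟨q.den, q.den_pos, fun _ => dvd_rfl⟩

theorem BD.int {ι : Type*} (F : ι → ℤ) : BD (fun i => (F i : ℚ)) :=
  ⟨1, one_pos, fun i => by simp⟩

theorem BD.add {ι : Type*} {F G : ι → ℚ} (hF : BD F) (hG : BD G) : BD (fun i => F i + G i) := by
  obtain ⟨N, hN, h⟩ := hF
  obtain ⟨M, hM, h'⟩ := hG
  exact ⟨N * M, Nat.mul_pos hN hM, fun i => (Rat.add_den_dvd _ _).trans (mul_dvd_mul (h i) (h' i))⟩

theorem BD.mul {ι : Type*} {F G : ι → ℚ} (hF : BD F) (hG : BD G) : BD (fun i => F i * G i) := by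
  obtain ⟨N, hN, h⟩ := hF
  obtain ⟨M, hM, h'⟩ := hG
  exact ⟨N * M, Nat.mul_pos hN hM, fun i => (Rat.mul_den_dvd _ _).trans (mul_dvd_mul (h i) (h' i))⟩

theorem BD.neg {ι : Type*} {F : ι → ℚ} (hF : BD F) : BD (fun i => -F i) := by
  obtain ⟨N, hN, h⟩ := hF
  exact ⟨N, hN, fun i => by rw [Rat.den_neg_eq_den]; exact h i⟩

theorem BD.sub {ι : Type*} {F G : ι → ℚ} (hF : BD F) (hG : BD G) : BD (fun i => F i - G i) := by
  have := hF.add hG.neg
  simpa [sub_eq_add_neg] using this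

theorem BD.pow {ι : Type*} {F : ι → ℚ} (hF : BD F) (n : ℕ) : BD (fun i => F i ^ n) := by
  induction n with
  | zero => simpa using (BD.const (ι := ι) 1)
  | succ n ih => simpa [pow_succ] using ih.mul hF

theorem BD.div {ι : Type*} {F : ι → ℚ} (hF : BD F) (q : ℚ) : BD (fun i => F i / q) := by
  have := hF.mul (BD.const (ι := ι) q⁻¹)
  simpa [div_eq_mul_inv] using this

theorem hyp_bd {g : ℚ → ℤ} {b c : ℚ} {k : ℤ} (h : Hyp g b c k) {ι : Type*} {F : ι → ℚ}
    (hF : BD F) : ∃ R : ℚ, ∀ i, R ≤ |F i| → g (fc b c (F i)) = k := by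
  obtain ⟨N, hN, h1⟩ := hF
  obtain ⟨R, hR⟩ := h N hN
  exact ⟨R, fun i hi => hR _ (h1 i) hi⟩

theorem quad_large (a b c : ℚ) (ha : a ≠ 0) (R : ℚ) :
    ∃ T : ℚ, ∀ X : ℚ, T ≤ |X| → R ≤ |a * X ^ 2 + b * X + c| := by
  refine ⟨max 1 ((|b| + |c| + |R|) / |a|), fun X hX => ?_⟩
  have ha' : 0 < |a| := abs_pos.2 ha
  have h1 : 1 ≤ |X| := (le_max_left _ _).trans hX
  have h2 : |b| + |c| + |R| ≤ |a| * |X| := by
    have := (le_max_right _ _).trans hX
    rw [div_le_iff₀ ha'] at this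
    linarith
  have h3 : |X| * (|a| * |X|) - |b| * |X| - |c| ≤ |a * X ^ 2 + b * X + c| := by
    have e1 : |a * X ^ 2| = |X| * (|a| * |X|) := by
      rw [abs_mul, abs_pow]
      ring
    have e2 : |b * X| = |b| * |X| := abs_mul _ _
    have e3 : |a * X ^ 2| ≤ |a * X ^ 2 + b * X + c| + |b * X| + |c| := by
      calc |a * X ^ 2| = |(a * X ^ 2 + b * X + c) - b * X - c| := by congr 1; ring
        _ ≤ |(a * X ^ 2 + b * X + c) - b * X| + |c| := abs_sub _ _
        _ ≤ |a * X ^ 2 + b * X + c| + |b * X| + |c| := by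
          have := abs_sub (a * X ^ 2 + b * X + c) (b * X)
          linarith
    linarith
  have h4 : |X| * (|b| + |c| + |R|) ≤ |X| * (|a| * |X|) :=
    mul_le_mul_of_nonneg_left h2 (abs_nonneg X)
  have h5 : |c| + |R| ≤ |X| * (|c| + |R|) := by
    have : 0 ≤ |c| + |R| := by positivity
    nlinarith
  have h6 : R ≤ |R| := le_abs_self R
  nlinarith

theorem Hyp.k_sq {g : ℚ → ℤ} (hg : GMul g) {b c : ℚ} {k : ℤ} (h : Hyp g b c k) : k * k = 1 := by
  obtain ⟨R, hR⟩ := h 1 one_pos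
  obtain ⟨n, hn⟩ := exists_nat_gt (max R (1 + |b| + |c|))
  have h1 : R < n := (le_max_left _ _).trans_lt hn
  have h2 : 1 + |b| + |c| < n := (le_max_right _ _).trans_lt hn
  have h3 : (fc b c n) ≠ 0 := by
    unfold fc
    have hb := neg_abs_le b
    have hc := neg_abs_le c
    have hb0 := abs_nonneg b
    have hc0 := abs_nonneg c
    have hn1 : (1 : ℚ) ≤ n := by linarith
    have t1 : (n : ℚ) * n ≤ (n : ℚ) ^ 3 := by nlinarith
    have t2 : -(|b| * n) ≤ b * n := by nlinarith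
    have t3 : (1 + |b| + |c|) * n < n * n := by nlinarith
    have t4 : |c| ≤ |c| * n := by nlinarith
    have : 0 < (n : ℚ) ^ 3 + b * n + c := by nlinarith
    exact this.ne'
  have h4 := hR n (by simp) (by rw [abs_of_nonneg (by positivity)]; exact h1.le)
  rw [← h4]
  exact hg.sq _ h3

/-- Lemma (A) in terms of `u`, `r = -2u`. -/
theorem lemA_u {g : ℚ → ℤ} (hg : GMul g) {b c : ℚ} {k : ℤ} (h : Hyp g b c k) (u : ℚ) (hu : u ≠ 0)
    (hf2 : fc b c (-2 * u) ≠ 0) (hm : 0 < -fc b c u / (3 * u))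
    (hns : ¬ IsSquare (-fc b c u / (3 * u))) : g (fc b c (-2 * u)) = g (-1) * k := by
  obtain ⟨m, hmd⟩ : ∃ m, m = -fc b c u / (3 * u) := ⟨_, rfl⟩
  rw [← hmd] at hm hns
  have hfu : fc b c u ≠ 0 := by
    intro h0
    rw [h0] at hmd
    simp at hmd
    exact hm.ne' hmd
  have hkap : m + (3 * u ^ 2 + b) ≠ 0 := by
    intro h0
    apply hf2
    have h1 : m * (3 * u) = -fc b c u := by
      rw [hmd]
      field_simp
    unfold fc at h1 ⊢
    have h2 : m = -(3 * u ^ 2 + b) := by linarith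
    rw [h2] at h1
    linear_combination h1
  obtain ⟨q, hq⟩ : ∃ q, q = m + (3 * u ^ 2 + b) := ⟨_, rfl⟩
  rw [← hq] at hkap
  -- the parametrisation
  have hden : (m.den : ℤ) ≠ 0 := by exact_mod_cast m.den_nz
  have hdenq : (m.den : ℚ) ≠ 0 := by exact_mod_cast m.den_nz
  have hnum : 0 < m.num := Rat.num_pos.2 hm
  have hd : 0 < m.num * m.den := mul_pos hnum (by exact_mod_cast m.den_pos)
  have hmm : m = (m.num : ℚ) / m.den := (Rat.num_div_den m).symm
  have hdns : ¬ IsSquare (m.num * m.den) := by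
    rintro ⟨z, hz⟩
    apply hns
    refine ⟨(z : ℚ) / m.den, ?_⟩
    have hz' : (m.num : ℚ) * m.den = z * z := by exact_mod_cast hz
    have : m = ((m.num : ℚ) * m.den) / (m.den * m.den) := by
      conv_lhs => rw [hmm]
      field_simp
    calc m = ((m.num : ℚ) * m.den) / (m.den * m.den) := this
      _ = (z * z : ℚ) / (m.den * m.den) := by rw [hz']
      _ = _ := by rw [div_mul_div_comm]
  let XX : ℤ × ℤ → ℚ := fun p => q * (p.1 : ℚ)
  let VV : ℤ × ℤ → ℚ := fun p => q * m.den / 2 * (p.2 : ℚ)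
  let WW : ℤ × ℤ → ℚ := fun p => (XX p + m + b - u ^ 2) / 2
  have bX : BD XX := (BD.const q).mul (BD.int (fun p : ℤ × ℤ => p.1))
  have bV : BD VV := (BD.const _).mul (BD.int (fun p : ℤ × ℤ => p.2))
  have bW : BD WW := (((bX.add (BD.const m)).add (BD.const b)).sub (BD.const (u ^ 2))).div 2
  let Y1 : ℤ × ℤ → ℚ := fun p => (WW p * (b - u ^ 2 - WW p) - 2 * u * c) / fc b c u
  let Y2 : ℤ × ℤ → ℚ := fun p => ((WW p - m) * (b - u ^ 2 - WW p + m) - 2 * u * c) / fc b c u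
  let Y3 : ℤ × ℤ → ℚ := fun p =>
    ((b - 5 * u ^ 2 + VV p ^ 2) * (u ^ 2 - VV p ^ 2) + 4 * u * c) / fc b c (-2 * u)
  have b1 : BD Y1 := ((bW.mul ((BD.const (b - u ^ 2)).sub bW)).sub (BD.const (2 * u * c))).div _
  have b2 : BD Y2 := (((bW.sub (BD.const m)).mul (((BD.const (b - u ^ 2)).sub bW).add
    (BD.const m))).sub (BD.const (2 * u * c))).div _
  have b3 : BD Y3 := ((((BD.const (b - 5 * u ^ 2)).add (bV.pow 2)).mul
    ((BD.const (u ^ 2)).sub (bV.pow 2))).add (BD.const (4 * u * c))).div _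
  have b4 : BD (fun p => u + VV p) := (BD.const u).add bV
  have b5 : BD (fun p => u - VV p) := (BD.const u).sub bV
  have b6 : BD (fun p => VV p - 2 * u) := bV.sub (BD.const (2 * u))
  have b7 : BD (fun p => -VV p - 2 * u) := bV.neg.sub (BD.const (2 * u))
  obtain ⟨R1, r1⟩ := hyp_bd h b1
  obtain ⟨R2, r2⟩ := hyp_bd h b2
  obtain ⟨R3, r3⟩ := hyp_bd h b3
  obtain ⟨R4, r4⟩ := hyp_bd h b4
  obtain ⟨R5, r5⟩ := hyp_bd h b5
  obtain ⟨R6, r6⟩ := hyp_bd h b6
  obtain ⟨R7, r7⟩ := hyp_bd h b7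
  -- sizes
  obtain ⟨T1, t1⟩ := quad_large (-(1 / (4 * fc b c u)))
    (-(m / 2) / fc b c u) (((m + b - u ^ 2) * (b - u ^ 2 - m) / 4 - 2 * u * c) / fc b c u)
    (by
      have : (4 * fc b c u) ≠ 0 := mul_ne_zero (by norm_num) hfu
      exact neg_ne_zero.2 (one_div_ne_zero this)) R1
  obtain ⟨T2, t2⟩ := quad_large (-(1 / (4 * fc b c u)))
    ((m / 2) / fc b c u) (((-m + b - u ^ 2) * (b - u ^ 2 + m) / 4 - 2 * u * c) / fc b c u)
    (by
      have : (4 * fc b c u) ≠ 0 := mul_ne_zero (by norm_num) hfu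
      exact neg_ne_zero.2 (one_div_ne_zero this)) R2
  obtain ⟨T3, t3⟩ := quad_large (-(1 / fc b c (-2 * u))) ((u ^ 2 - (b - 5 * u ^ 2)) / fc b c (-2 * u))
    (((b - 5 * u ^ 2) * u ^ 2 + 4 * u * c) / fc b c (-2 * u))
    (neg_ne_zero.2 (one_div_ne_zero hf2)) R3
  obtain ⟨n, hn⟩ := exists_nat_gt (max (max (max T1 T2) (max T3 1))
    (max (max (R4 + |u|) (R5 + |u|)) (max (R6 + |2 * u|) (R7 + |2 * u|))) / (|q| / 2))
  obtain ⟨x, y, hx, hy, hxy⟩ := pell_large _ hd hdns n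
  have hxq : (n : ℚ) ≤ x := by exact_mod_cast hx
  have hyq : (n : ℚ) ≤ y := by exact_mod_cast hy
  have hn0 : (0 : ℚ) ≤ n := by positivity
  have hqp : 0 < |q| / 2 := by have := abs_pos.2 hkap; positivity
  rw [div_lt_iff₀ hqp] at hn
  have hbX : (n : ℚ) * (|q| / 2) ≤ |XX (x, y)| := by
    change (n : ℚ) * (|q| / 2) ≤ |q * (x : ℚ)|
    rw [abs_mul, abs_of_nonneg (hn0.trans hxq)]
    have h0 : 0 ≤ |q| := abs_nonneg q
    nlinarith
  have hbV : (n : ℚ) * (|q| / 2) ≤ |VV (x, y)| := by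
    change (n : ℚ) * (|q| / 2) ≤ |q * m.den / 2 * (y : ℚ)|
    have hd1 : (1 : ℚ) ≤ m.den := by exact_mod_cast m.den_pos
    have e1 : |q * m.den / 2 * (y : ℚ)| = |q| / 2 * (m.den * y) := by
      rw [abs_mul, abs_div, abs_mul, abs_of_nonneg (hn0.trans hyq),
        abs_of_nonneg (show (0 : ℚ) ≤ m.den by positivity), abs_of_pos (show (0 : ℚ) < 2 by norm_num)]
      ring
    rw [e1, mul_comm]
    apply mul_le_mul_of_nonneg_left _ hqp.le
    nlinarith
  have hM1 := (le_max_left _ _).trans_lt hn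
  have hM2 := (le_max_right _ _).trans_lt hn
  have hT1 : T1 ≤ |XX (x, y)| := (((le_max_left T1 T2).trans (le_max_left _ _)).trans hM1.le).trans hbX
  have hT2 : T2 ≤ |XX (x, y)| := (((le_max_right T1 T2).trans (le_max_left _ _)).trans hM1.le).trans hbX
  have hV3 : T3 ≤ |VV (x, y)| := (((le_max_left T3 1).trans (le_max_right _ _)).trans hM1.le).trans hbV
  have hV1 : 1 ≤ |VV (x, y)| := (((le_max_right T3 1).trans (le_max_right _ _)).trans hM1.le).trans hbV
  have hV4 : R4 + |u| ≤ |VV (x, y)| :=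
    (((le_max_left (R4 + |u|) (R5 + |u|)).trans (le_max_left _ _)).trans hM2.le).trans hbV
  have hV5 : R5 + |u| ≤ |VV (x, y)| :=
    (((le_max_right (R4 + |u|) (R5 + |u|)).trans (le_max_left _ _)).trans hM2.le).trans hbV
  have hV6 : R6 + |2 * u| ≤ |VV (x, y)| :=
    (((le_max_left (R6 + |2 * u|) (R7 + |2 * u|)).trans (le_max_right _ _)).trans hM2.le).trans hbV
  have hV7 : R7 + |2 * u| ≤ |VV (x, y)| :=
    (((le_max_right (R6 + |2 * u|) (R7 + |2 * u|)).trans (le_max_right _ _)).trans hM2.le).trans hbV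
  have s1 := r1 (x, y) (by
    have := t1 _ hT1
    refine this.trans (le_of_eq ?_)
    congr 1
    change _ = (WW (x, y) * (b - u ^ 2 - WW (x, y)) - 2 * u * c) / fc b c u
    change _ = (((XX (x, y) + m + b - u ^ 2) / 2) * (b - u ^ 2 - ((XX (x, y) + m + b - u ^ 2) / 2)) - 2 * u * c) / fc b c u
    field_simp
    ring)
  have s2 := r2 (x, y) (by
    have := t2 _ hT2
    refine this.trans (le_of_eq ?_)
    congr 1
    change _ = ((((XX (x, y) + m + b - u ^ 2) / 2) - m) * (b - u ^ 2 - ((XX (x, y) + m + b - u ^ 2) / 2) + m) - 2 * u * c) / fc b c u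
    field_simp
    ring)
  have s3 := r3 (x, y) (by
    have hsq : T3 ≤ |VV (x, y) ^ 2| := by
      rw [abs_pow]
      nlinarith [abs_nonneg (VV (x, y))]
    have := t3 _ hsq
    refine this.trans (le_of_eq ?_)
    congr 1
    change _ = ((b - 5 * u ^ 2 + VV (x, y) ^ 2) * (u ^ 2 - VV (x, y) ^ 2) + 4 * u * c) / fc b c (-2 * u)
    ring)
  have habs : ∀ p t : ℚ, |p| - |t| ≤ |t + p| := fun p t => by
    have := abs_sub_abs_le_abs_sub p (-t)
    rw [abs_neg, sub_neg_eq_add, add_comm] at this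
    exact this
  have s4 := r4 (x, y) (by
    have := habs (VV (x, y)) u
    linarith)
  have s5 := r5 (x, y) (by
    have := habs (-VV (x, y)) u
    rw [abs_neg, ← sub_eq_add_neg] at this
    linarith)
  have s6 := r6 (x, y) (by
    have := habs (VV (x, y)) (-(2 * u))
    rw [abs_neg, neg_add_eq_sub] at this
    linarith)
  have s7 := r7 (x, y) (by
    have := habs (-VV (x, y)) (-(2 * u))
    rw [abs_neg, abs_neg, neg_add_eq_sub] at this
    linarith)
  have hX : XX (x, y) ^ 2 - 4 * m * VV (x, y) ^ 2 = (m + (3 * u ^ 2 + b)) ^ 2 := by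
    rw [← hq]
    change (q * (x : ℚ)) ^ 2 - 4 * m * (q * m.den / 2 * (y : ℚ)) ^ 2 = q ^ 2
    have hxy' : (x : ℚ) ^ 2 - (m.num : ℚ) * m.den * (y : ℚ) ^ 2 = 1 := by exact_mod_cast hxy
    have e1 : m * m.den = m.num := by
      rw [Rat.mul_den_eq_num]
    have e2 : (q * (x : ℚ)) ^ 2 - 4 * m * (q * m.den / 2 * (y : ℚ)) ^ 2 =
        q ^ 2 * ((x : ℚ) ^ 2 - (m * m.den) * m.den * (y : ℚ) ^ 2) := by ring
    rw [e2, e1, hxy', mul_one]
  have key := seven_term b c u (VV (x, y)) (XX (x, y)) (by norm_num) (by norm_num) hu hfu hf2 m hmd hX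
    (WW (x, y)) (Y1 (x, y)) (Y2 (x, y)) (Y3 (x, y)) rfl rfl rfl rfl
  have hk := h.k_sq hg
  have G := congrArg g key
  have hm0 : m ≠ 0 := hm.ne'
  have p1 : g (fc b c u ^ 6) = 1 := by
    rw [show fc b c u ^ 6 = (fc b c u ^ 3) ^ 2 by ring]
    exact hg.pow_two (pow_ne_zero 3 hfu)
  have p2 : g (-m ^ 6) = g (-1) := by
    rw [show -m ^ 6 = -1 * (m ^ 3) ^ 2 by ring, hg.mul, hg.pow_two (pow_ne_zero 3 hm0), mul_one]
  have p3 : g (fc b c (-2 * u) ^ 3) = g (fc b c (-2 * u)) := by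
    rw [show fc b c (-2 * u) ^ 3 = fc b c (-2 * u) * fc b c (-2 * u) ^ 2 by ring, hg.mul,
      hg.pow_two hf2, mul_one]
  rw [hg.mul, hg.mul, hg.mul, hg.mul, hg.mul, hg.mul, hg.mul, hg.mul, p1, p2, p3, s1, s2, s3, s4,
    s5, s6, s7] at G
  have hg2 := hg.sq (fc b c (-2 * u)) hf2
  have hg1 := hg.sq (-1) (by norm_num)
  have e5 : k * k * k * k = 1 := by
    calc k * k * k * k = (k * k) * (k * k) := by ring
      _ = 1 := by rw [hk, one_mul]
  have G2 : (1 : ℤ) = g (-1) * g (fc b c (-2 * u)) * k := by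
    have : 1 * k * k * k * k = g (-1) * g (fc b c (-2 * u)) * k * (k * k) := by
      rw [G]
      ring
    rw [one_mul, e5, hk, mul_one] at this
    exact this
  calc g (fc b c (-2 * u)) = g (fc b c (-2 * u)) * 1 * (g (-1) * g (-1)) := by rw [hg1]; ring
    _ = g (fc b c (-2 * u)) * (k * k) * (g (-1) * g (-1)) := by rw [hk]
    _ = (g (-1) * g (fc b c (-2 * u)) * k) * (g (-1) * k) := by ring
    _ = g (-1) * k := by rw [← G2, one_mul]

/-- Lemma (A). -/
theorem lemA {g : ℚ → ℤ} (hg : GMul g) {b c : ℚ} {k : ℤ} (h : Hyp g b c k) (r : ℚ) (hr : r ≠ 0)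
    (hf : fc b c r ≠ 0) (hm : 0 < (8 * c - 4 * b * r - r ^ 3) / (12 * r))
    (hns : ¬ IsSquare ((8 * c - 4 * b * r - r ^ 3) / (12 * r))) :
    g (fc b c r) = g (-1) * k := by
  have hu : (-r / 2) ≠ 0 := by
    intro h0
    apply hr
    linarith
  have e1 : -2 * (-r / 2) = r := by ring
  have e2 : -fc b c (-r / 2) / (3 * (-r / 2)) = (8 * c - 4 * b * r - r ^ 3) / (12 * r) := by
    unfold fc
    field_simp
    ring
  have := lemA_u hg h (-r / 2) hu (by rw [e1]; exact hf) (by rw [e2]; exact hm) (by rw [e2]; exact hns)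
  rw [e1] at this
  exact this

end LemA

end Pool.Agent.Lib.MP_648c71_nt.AllCub
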