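import Mathlib

/-!
The 5-adic nonsquare lemma: for a rational number r whose 5-adic valuation is very negative,
`m(r) = (8c - 4br - r^3)/(12 r)` is not a square, because `m(r) = -3 (r/6)^2 (1 + small)` and
`-3` is not a square modulo 5.
-/

namespace H84.NonSq5

instance : Fact (Nat.Prime 5) := ⟨by norm_num⟩

/-- `-3 s^2 = 1 + e` is impossible in the 5-adic numbers when `|e| < 1`. -/
theorem padic_core (s e : ℚ_[5]) (he : ‖e‖ < 1) (h : -3 * s ^ 2 = 1 + e) : False := by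
  have h3 : ‖(3 : ℚ_[5])‖ = 1 := by
    have : ‖((3 : ℤ) : ℚ_[5])‖ = 1 := by
      have h' : ¬ (‖((3 : ℤ) : ℚ_[5])‖ < 1) := by
        rw [Padic.norm_intCast_lt_one_iff]; norm_num
      exact le_antisymm (Padic.norm_int_le_one 3) (not_lt.mp h')
    simpa using this
  have h1 : ‖(1 : ℚ_[5]) + e‖ = 1 := by
    have := Padic.add_eq_max_of_ne (p := 5) (q := 1) (r := e)
      (by rw [norm_one]; exact (ne_of_lt he).symm)
    rw [this, norm_one]; exact max_eq_left he.le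
  have hs : ‖s‖ = 1 := by
    have := congrArg norm h
    rw [norm_mul, norm_neg, h3, one_mul, norm_pow, h1] at this
    have h0 := norm_nonneg s
    nlinarith [this, h0]
  let S : ℤ_[5] := ⟨s, hs.le⟩
  let E : ℤ_[5] := ⟨e, he.le⟩
  have hSE : (-3 : ℤ_[5]) * S ^ 2 = 1 + E := by
    apply Subtype.ext
    push_cast
    exact h
  have hE : PadicInt.toZMod E = 0 := by
    have : E ∈ RingHom.ker (PadicInt.toZMod (p := 5)) := by
      rw [PadicInt.ker_toZMod, IsLocalRing.mem_maximalIdeal, PadicInt.mem_nonunits]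
      exact he
    simpa using this
  have := congrArg (PadicInt.toZMod (p := 5)) hSE
  rw [map_mul, map_neg, map_pow, map_add, map_one, hE, add_zero, map_ofNat] at this
  revert this
  generalize PadicInt.toZMod (p := 5) S = t
  revert t
  decide

/-- The 5-adic nonsquare lemma, norm form. -/
theorem nonsq5_norm (b c : ℚ) (r : ℚ)
    (h1 : 1 < ‖((r : ℚ) : ℚ_[5])‖)
    (hb : ‖((4 * b : ℚ) : ℚ_[5])‖ < ‖((r : ℚ) : ℚ_[5])‖)
    (hc : ‖((8 * c : ℚ) : ℚ_[5])‖ < ‖((r : ℚ) : ℚ_[5])‖) :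
    ¬ IsSquare ((8 * c - 4 * b * r - r ^ 3) / (12 * r)) := by
  rintro ⟨t, ht⟩
  have hr : r ≠ 0 := by
    rintro rfl
    simp at h1
    linarith
  have hr' : ((r : ℚ) : ℚ_[5]) ≠ 0 := by exact_mod_cast hr
  have key : (-3 : ℚ) * (2 * t / r) ^ 2 = 1 + (4 * b / r ^ 2 + -(8 * c / r ^ 3)) := by
    have : (8 * c - 4 * b * r - r ^ 3) = t * t * (12 * r) := by
      rw [← ht]; field_simp
    field_simp
    linear_combination this
  refine padic_core ((2 * t / r : ℚ) : ℚ_[5]) ((4 * b / r ^ 2 + -(8 * c / r ^ 3) : ℚ) : ℚ_[5])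
    ?_ ?_
  · have e1 : ((4 * b / r ^ 2 + -(8 * c / r ^ 3) : ℚ) : ℚ_[5])
        = ((4 * b : ℚ) : ℚ_[5]) / (r : ℚ_[5]) ^ 2 + -(((8 * c : ℚ) : ℚ_[5]) / (r : ℚ_[5]) ^ 3) := by
      push_cast; ring
    rw [e1]
    refine lt_of_le_of_lt (Padic.nonarchimedean _ _) ?_
    rw [norm_neg, norm_div, norm_div, norm_pow, norm_pow]
    set R := ‖((r : ℚ) : ℚ_[5])‖ with hR
    have hR0 : 0 < R := lt_trans one_pos h1
    have hR2 : R < R ^ 2 := by nlinarith
    have hR3 : R ^ 2 < R ^ 3 := by nlinarith [pow_pos hR0 2]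
    refine max_lt ?_ ?_
    · rw [div_lt_one (by positivity)]; linarith
    · rw [div_lt_one (by positivity)]; linarith
  · have := congrArg (fun x : ℚ => (x : ℚ_[5])) key
    push_cast at this ⊢
    exact this

/-- The 5-adic nonsquare lemma: `m(r)` is not a square once `v_5(r)` is very negative. -/
theorem nonsq5 (b c : ℚ) : ∃ k0 : ℕ, ∀ r : ℚ, r ≠ 0 → padicValRat 5 r ≤ -(k0 : ℤ) →
    ¬ IsSquare ((8 * c - 4 * b * r - r ^ 3) / (12 * r)) := by
  obtain ⟨k0, hk0⟩ := pow_unbounded_of_one_lt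
    (max 1 (max ‖((4 * b : ℚ) : ℚ_[5])‖ ‖((8 * c : ℚ) : ℚ_[5])‖)) (by norm_num : (1 : ℝ) < 5)
  refine ⟨k0, fun r hr hv => ?_⟩
  have hn : (5 : ℝ) ^ k0 ≤ ‖((r : ℚ) : ℚ_[5])‖ := by
    rw [Padic.eq_padicNorm, padicNorm.eq_zpow_of_nonzero hr]
    push_cast
    rw [← zpow_natCast]
    exact zpow_le_zpow_right₀ (by norm_num) (by linarith)
  have h := lt_of_lt_of_le hk0 hn
  refine nonsq5_norm b c r ?_ ?_ ?_
  · exact lt_of_le_of_lt (le_max_left _ _) h
  · exact lt_of_le_of_lt ((le_max_left _ _).trans (le_max_right _ _)) h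
  · exact lt_of_le_of_lt ((le_max_right _ _).trans (le_max_right _ _)) h

/-- Valuation of `p / (5^k q)` with `p, q` prime to 5. -/
theorem val_frac (k : ℕ) (p q : ℤ) (hp : ¬ (5 : ℤ) ∣ p) (hq : ¬ (5 : ℤ) ∣ q) :
    padicValRat 5 ((p : ℚ) / (5 ^ k * q)) = -(k : ℤ) := by
  have hp0 : p ≠ 0 := by rintro rfl; exact hp (dvd_zero _)
  have hq0 : q ≠ 0 := by rintro rfl; exact hq (dvd_zero _)
  have hp0' : (p : ℚ) ≠ 0 := by exact_mod_cast hp0
  have hq0' : (q : ℚ) ≠ 0 := by exact_mod_cast hq0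
  have v5 : padicValRat 5 ((5 : ℚ)) = 1 := by
    have := padicValRat.self (p := 5) (by norm_num : 1 < 5)
    simpa using this
  have v5k : padicValRat 5 ((5 : ℚ) ^ k) = k := by
    rw [padicValRat.pow, v5, mul_one]
  rw [padicValRat.div hp0' (mul_ne_zero (by positivity) hq0'),
    padicValRat.mul (by positivity) hq0', v5k,
    padicValRat.of_int, padicValRat.of_int, padicValInt.eq_zero_of_not_dvd (by exact_mod_cast hp),
    padicValInt.eq_zero_of_not_dvd (by exact_mod_cast hq)]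
  push_cast
  ring

/-- Explicit form. -/
theorem nonsq5_frac (b c : ℚ) : ∃ k0 : ℕ, ∀ k : ℕ, k0 ≤ k → ∀ p q : ℤ, ¬ (5 : ℤ) ∣ p →
    ¬ (5 : ℤ) ∣ q → ∀ r : ℚ, r = (p : ℚ) / (5 ^ k * q) →
    ¬ IsSquare ((8 * c - 4 * b * r - r ^ 3) / (12 * r)) := by
  obtain ⟨k0, hk0⟩ := nonsq5 b c
  refine ⟨k0, fun k hk p q hp hq r hr => ?_⟩
  have hp0 : p ≠ 0 := by rintro rfl; exact hp (dvd_zero _)
  have hq0 : q ≠ 0 := by rintro rfl; exact hq (dvd_zero _)
  refine hk0 r ?_ ?_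
  · rw [hr]
    exact div_ne_zero (by exact_mod_cast hp0) (mul_ne_zero (by positivity) (by exact_mod_cast hq0))
  · rw [hr, val_frac k p q hp hq]
    have : (k0 : ℤ) ≤ k := by exact_mod_cast hk
    linarith

end H84.NonSq5

namespace H84.NonSq5

/-- Integer form: `b, c` integers, `r = N/(5M)` with `5 ∤ N`. -/
theorem nonsq (b c N M : ℤ) (hM : M ≠ 0) (hN : ¬ (5 : ℤ) ∣ N) :
    ¬ IsSquare ((8 * (c : ℚ) - 4 * b * ((N : ℚ) / (5 * M)) - ((N : ℚ) / (5 * M)) ^ 3) /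
      (12 * ((N : ℚ) / (5 * M)))) := by
  have hN0 : N ≠ 0 := by rintro rfl; exact hN (dvd_zero _)
  have hNn : ‖((N : ℤ) : ℚ_[5])‖ = 1 := by
    have h' : ¬ (‖((N : ℤ) : ℚ_[5])‖ < 1) := by
      rw [Padic.norm_intCast_lt_one_iff]; exact_mod_cast hN
    exact le_antisymm (Padic.norm_int_le_one N) (not_lt.mp h')
  have hMn : ‖((M : ℤ) : ℚ_[5])‖ ≤ 1 := Padic.norm_int_le_one M
  have hMpos : 0 < ‖((M : ℤ) : ℚ_[5])‖ := by
    rw [norm_pos_iff]; exact_mod_cast hM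
  have h5n : ‖(5 : ℚ_[5])‖ = 1 / 5 := by
    have := Padic.norm_p (p := 5)
    push_cast at this
    rw [this]; norm_num
  have hr : ‖(((N : ℚ) / (5 * M) : ℚ) : ℚ_[5])‖ = 5 / ‖((M : ℤ) : ℚ_[5])‖ := by
    push_cast
    rw [norm_div, norm_mul, h5n]
    have : ‖((N : ℚ_[5]))‖ = 1 := hNn
    rw [this]
    field_simp
  have hbig : 5 ≤ 5 / ‖((M : ℤ) : ℚ_[5])‖ := by
    rw [le_div_iff₀ hMpos]; nlinarith
  have hb' : ‖((4 * (b : ℚ) : ℚ) : ℚ_[5])‖ ≤ 1 := by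
    have := Padic.norm_int_le_one (p := 5) (4 * b)
    push_cast at this ⊢
    exact this
  have hc' : ‖((8 * (c : ℚ) : ℚ) : ℚ_[5])‖ ≤ 1 := by
    have := Padic.norm_int_le_one (p := 5) (8 * c)
    push_cast at this ⊢
    exact this
  exact nonsq5_norm (b : ℚ) (c : ℚ) ((N : ℚ) / (5 * M)) (by rw [hr]; linarith)
    (by rw [hr]; linarith) (by rw [hr]; linarith)

end H84.NonSq5
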