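import Pool.Agent.Lib.MP_648c71_nt.AC.SeqDef
import Pool.Agent.Lib.MP_648c71_nt.AC.Nonsq
import Pool.Agent.Lib.MP_648c71_nt.Lam

/-!
# The case in which the sign is constant at all admissible small arguments
-/

set_option autoImplicit false

namespace Pool.Agent.Lib.MP_648c71_nt.AllCub

open Pool.Agent.Lib.MP_648c71_nt

/-- values of `m(r)` and `f(r)` for `0 < r`, `4 |b| r ≤ 1`, `r ≤ 1`, `c ≥ 1` -/
theorem pos_small {b c r : ℚ} (hc : 1 ≤ c) (h0 : 0 < r) (h1 : r ≤ 1) (hb : 4 * |b| * r ≤ 1) :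
    0 < (8 * c - 4 * b * r - r ^ 3) / (12 * r) ∧ 0 < fc b c r := by
  have hr3 : r ^ 3 ≤ 1 := pow_le_one₀ h0.le h1
  have hr3' : 0 < r ^ 3 := by positivity
  have hb1 : b * r ≤ |b| * r := mul_le_mul_of_nonneg_right (le_abs_self b) h0.le
  have hb2 : -(|b| * r) ≤ b * r := by
    have := mul_le_mul_of_nonneg_right (neg_abs_le b) h0.le
    linarith
  constructor
  · apply div_pos _ (by linarith)
    nlinarith
  · unfold fc
    nlinarith

/-- Large solutions of `Z^2 - D T^2 = n` from one solution. -/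
theorem orbit_large (D a e Z T : ℤ) (hD : 0 < D) (ha : 2 ≤ a) (he : 1 ≤ e) (hp : a ^ 2 - D * e ^ 2 = 1)
    (hZ : 1 ≤ Z) (hT : 1 ≤ T) (B : ℕ) :
    ∃ Z' T' : ℤ, (B : ℤ) ≤ Z' ∧ 1 ≤ Z' ∧ 1 ≤ T' ∧ Z' ^ 2 - D * T' ^ 2 = Z ^ 2 - D * T ^ 2 := by
  induction B with
  | zero => exact ⟨Z, T, by push_cast; linarith, hZ, hT, rfl⟩
  | succ B ih =>
    obtain ⟨Z', T', h1, h2, h3, h4⟩ := ih
    have t1 : 0 ≤ D * e * T' := by positivity
    have t2 : 2 * Z' ≤ a * Z' := mul_le_mul_of_nonneg_right ha (by linarith)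
    have t3 : 0 ≤ e * Z' := by positivity
    have t4 : 2 * T' ≤ a * T' := mul_le_mul_of_nonneg_right ha (by linarith)
    refine ⟨a * Z' + D * e * T', e * Z' + a * T', ?_, by linarith, by linarith, ?_⟩
    · push_cast
      linarith
    · rw [← h4]
      have : (a * Z' + D * e * T') ^ 2 - D * (e * Z' + a * T') ^ 2 =
          (a ^ 2 - D * e ^ 2) * (Z' ^ 2 - D * T' ^ 2) := by ring
      rw [this, hp, one_mul]

/-- The initial solution. -/
theorem start (b : ℤ) (D α β : ℤ) (hD : 0 < D) (hDs : ¬ IsSquare D) (hα : 0 ≤ α) (hβ : 0 < β)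
    (hβ5 : ¬ (5 : ℤ) ∣ β) (hαβ : 4 * α ^ 2 + 3 * β ^ 2 = 4 * D)
    (hh : ∀ ζ κ : ℤ, 1 ≤ κ → 0 ≤ ζ → ζ ^ 2 - D * κ ^ 2 = 1 → ∃ h, κ ≤ h ∧ 3 * h = D * κ - α * ζ) :
    ∃ X E' Z T : ℤ, 0 < X ∧ 0 < E' ∧ 1 ≤ Z ∧ 1 ≤ T ∧ ¬ (5 : ℤ) ∣ X ∧ X ≤ 5 * E' ∧ 4 * |b| * X ≤ 5 * E' ∧
      4 * Z ^ 2 + 3 * X ^ 2 + 4 * b * (5 * E') ^ 2 = 4 * D * T ^ 2 := by
  have hb0 : 0 ≤ |b| := abs_nonneg b
  obtain ⟨m, hm⟩ : ∃ m : ℤ, m = 5 * |b| + 1 := ⟨_, rfl⟩
  obtain ⟨N, hN⟩ : ∃ N : ℤ, N = m ^ 2 + 25 * b := ⟨_, rfl⟩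
  have hm1 : 1 ≤ m := by linarith
  have hNpos : 0 < N := by
    have h1 : -|b| ≤ b := neg_abs_le b
    rw [hN, hm]
    rcases hb0.eq_or_lt with h | h
    · rw [← h]; rw [← h] at h1
      nlinarith
    · have h2 : 1 ≤ |b| := h
      nlinarith
  have hN5 : ¬ (5 : ℤ) ∣ N := by
    have : N = 1 + 5 * (5 * |b| ^ 2 + 2 * |b| + 5 * b) := by rw [hN, hm]; ring
    omega
  have h5 : Prime (5 : ℤ) := Int.prime_iff_natAbs_prime.2 (by norm_num)
  obtain ⟨ζ, κ, hζ, hκ, hP⟩ := pell_large D hD hDs (β * N * (4 * |b| + 1) + 1).toNat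
  have hB : 0 ≤ β * N * (4 * |b| + 1) + 1 := by positivity
  rw [Int.toNat_of_nonneg hB] at hζ hκ
  have hβN : 0 < β * N := by positivity
  have hκ1 : 1 ≤ κ := by
    have : 0 ≤ β * N * (4 * |b| + 1) := by positivity
    linarith
  have hζ1 : 1 ≤ ζ := by
    have : 0 ≤ β * N * (4 * |b| + 1) := by positivity
    linarith
  obtain ⟨h, hh1, hh2⟩ := hh ζ κ hκ1 (by linarith) hP
  have hh0 : 1 ≤ h := by linarith
  have hmh : h ≤ m * h := by nlinarith
  refine ⟨β * N, 6 * m * h, 6 * m ^ 2 * ζ * h + α * N, 6 * m ^ 2 * κ * h + N, hβN, by positivity, ?_, ?_, ?_,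
    ?_, ?_, ?_⟩
  · have h1 : 0 ≤ α * N := by positivity
    have h2 : 0 < 6 * m ^ 2 * ζ * h := by positivity
    linarith
  · have h2 : 0 < 6 * m ^ 2 * κ * h := by positivity
    linarith
  · intro hd
    rcases h5.dvd_or_dvd hd with h6 | h6
    · exact hβ5 h6
    · exact hN5 h6
  · have h1 : β * N ≤ β * N * (4 * |b| + 1) := by nlinarith
    nlinarith
  · have h1 : 4 * |b| * (β * N) ≤ β * N * (4 * |b| + 1) := by nlinarith
    nlinarith
  · linear_combination (144 * m ^ 4 * h ^ 2) * hP + (48 * m ^ 2 * h * N) * hh2 + N ^ 2 * hαβ -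
      (144 * m ^ 2 * h ^ 2) * hN

/-- One step: the two large arguments have opposite signs. -/
theorem opp {g : ℚ → ℤ} (hg : GMul g) {b c k : ℤ} (hc : 0 < c)
    (hA : ∀ r : ℚ, r ≠ 0 → fc (b : ℚ) c r ≠ 0 → 0 < (8 * (c : ℚ) - 4 * b * r - r ^ 3) / (12 * r) →
      ¬ IsSquare ((8 * (c : ℚ) - 4 * b * r - r ^ 3) / (12 * r)) → g (fc b c r) = k)
    (D : ℤ) (hD : 0 < D) (hD5 : ∀ t x : ℤ, (5 : ℤ) ∣ D * t ^ 2 - x ^ 2 → (5 : ℤ) ∣ x)
    (hgD : g (-1) * g D = -1) {X E' Z T : ℤ} (hX : 0 < X) (hE : 0 < E') (hT : 1 ≤ T)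
    (hX5 : ¬ (5 : ℤ) ∣ X) (hXE : X ≤ 5 * E') (hbX : 4 * |b| * X ≤ 5 * E')
    (hrel : 4 * Z ^ 2 + 3 * X ^ 2 + 4 * b * (5 * E') ^ 2 = 4 * D * T ^ 2)
    (hZ : 4 * c * (5 * E') ^ 3 < X * (4 * Z ^ 2 - X ^ 2)) :
    g (fc b c (((2 * Z - X : ℤ) : ℚ) / ((2 * (5 * E') : ℤ) : ℚ))) *
      g (fc b c (((-2 * Z - X : ℤ) : ℚ) / ((2 * (5 * E') : ℤ) : ℚ))) = -1 := by
  have hcQ : (1 : ℚ) ≤ c := by exact_mod_cast hc
  have hXQ : (0 : ℚ) < X := by exact_mod_cast hX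
  have hEQ : (0 : ℚ) < E' := by exact_mod_cast hE
  have hTQ : (1 : ℚ) ≤ T := by exact_mod_cast hT
  have hDQ : (0 : ℚ) < D := by exact_mod_cast hD
  have hb0 : (0 : ℚ) ≤ |(b : ℚ)| := abs_nonneg _
  -- the small arguments
  have hS : ∀ N M : ℤ, 0 < N → 0 < M → N * (5 * E') ≤ X * (5 * M) → ¬ (5 : ℤ) ∣ N →
      g (fc b c ((N : ℚ) / (5 * M))) = k ∧ 0 < fc (b : ℚ) c ((N : ℚ) / (5 * M)) := by
    intro N M hN hM hNM h5
    have hNQ : (0 : ℚ) < N := by exact_mod_cast hN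
    have hMQ : (0 : ℚ) < M := by exact_mod_cast hM
    have h0 : (0 : ℚ) < (N : ℚ) / (5 * M) := by positivity
    have hle : (N : ℚ) / (5 * M) ≤ X / (5 * E') := by
      rw [div_le_div_iff₀ (by positivity) (by positivity)]
      exact_mod_cast hNM
    have h1 : (X : ℚ) / (5 * E') ≤ 1 := by
      rw [div_le_one (by positivity)]
      exact_mod_cast hXE
    have h2 : 4 * |(b : ℚ)| * (X / (5 * E')) ≤ 1 := by
      rw [← mul_div_assoc, div_le_one (by positivity)]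
      exact_mod_cast hbX
    have h3 : 4 * |(b : ℚ)| * ((N : ℚ) / (5 * M)) ≤ 1 := by
      refine le_trans ?_ h2
      exact mul_le_mul_of_nonneg_left hle (by positivity)
    obtain ⟨p1, p2⟩ := pos_small hcQ h0 (hle.trans h1) h3
    exact ⟨hA _ h0.ne' p2.ne' p1 (H84.NonSq5.nonsq b c N M hM.ne' h5), p2⟩
  obtain ⟨hx, hxp⟩ := hS X E' hX hE le_rfl hX5
  obtain ⟨N, hN⟩ : ∃ N : ℤ, N = X * (4 * Z ^ 2 - X ^ 2) - 4 * c * (5 * E') ^ 3 := ⟨_, rfl⟩
  have hNpos : 0 < N := by rw [hN]; linarith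
  have hN5 : ¬ (5 : ℤ) ∣ N := by
    intro h5
    apply hX5
    have hp5 : Prime (5 : ℤ) := Int.prime_iff_natAbs_prime.2 (by norm_num)
    have h6 : (5 : ℤ) ∣ X * (4 * Z ^ 2 - X ^ 2) := by
      have : X * (4 * Z ^ 2 - X ^ 2) = N + 5 * (4 * c * 25 * E' ^ 3) := by rw [hN]; ring
      rw [this]
      exact dvd_add h5 (dvd_mul_right _ _)
    rcases hp5.dvd_or_dvd h6 with h7 | h7
    · exact h7
    · have h8 : (5 : ℤ) ∣ 2 * X := by
        apply hD5 (2 * T) (2 * X)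
        have e : D * (2 * T) ^ 2 - (2 * X) ^ 2 = (4 * Z ^ 2 - X ^ 2) + 5 * (20 * b * E' ^ 2) := by
          have : D * (2 * T) ^ 2 = 4 * D * T ^ 2 := by ring
          rw [this, ← hrel]
          ring
        rw [e]
        exact dvd_add h7 (dvd_mul_right _ _)
      rcases hp5.dvd_or_dvd h8 with h9 | h9
      · norm_num at h9
      · exact h9
  -- the second small argument
  have hle : N * (5 * E') ≤ X * (5 * (4 * D * T ^ 2 * E')) := by
    have h1 : N ≤ X * (4 * D * T ^ 2) := by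
      rw [← hrel, hN]
      have hcE : b * X * (5 * E') ^ 2 * 4 + 4 * X ^ 3 + 4 * c * (5 * E') ^ 3 ≥ 0 := by
        have hbb : -|b| ≤ b := neg_abs_le b
        have e1 : -(|b| * (X * (5 * E') ^ 2 * 4)) ≤ b * (X * (5 * E') ^ 2 * 4) := by
          have : 0 ≤ X * (5 * E') ^ 2 * 4 := by positivity
          nlinarith
        have e2 : |b| * (X * (5 * E') ^ 2 * 4) ≤ (5 * E') ^ 3 := by
          have : (4 * |b| * X) * (5 * E') ^ 2 ≤ (5 * E') * (5 * E') ^ 2 :=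
            mul_le_mul_of_nonneg_right hbX (by positivity)
          nlinarith
        have e3 : (5 * E') ^ 3 ≤ 4 * c * (5 * E') ^ 3 := by
          have : 0 < (5 * E') ^ 3 := by positivity
          nlinarith
        have e4 : 0 ≤ 4 * X ^ 3 := by positivity
        nlinarith
      nlinarith
    nlinarith
  obtain ⟨hy, hyp⟩ := hS N (4 * D * T ^ 2 * E') hNpos (by positivity) hle hN5
  -- the identity
  have hrelQ : 4 * (Z : ℚ) ^ 2 + 3 * X ^ 2 + 4 * b * (5 * E') ^ 2 = 4 * D * T ^ 2 := by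
    exact_mod_cast hrel
  have hq : ((2 * Z + X : ℚ) / (2 * (5 * E'))) ^ 2 + b -
      X / (5 * E') * ((2 * Z + X : ℚ) / (2 * (5 * E')) - X / (5 * E')) = D * (T / (5 * E')) ^ 2 := by
    field_simp
    linear_combination hrelQ
  have hqne : ((2 * Z + X : ℚ) / (2 * (5 * E'))) ^ 2 + b -
      X / (5 * E') * ((2 * Z + X : ℚ) / (2 * (5 * E')) - X / (5 * E')) ≠ 0 := by
    rw [hq]
    positivity
  have h4 := four_term (K := ℚ) b c ((2 * Z + X : ℚ) / (2 * (5 * E'))) (X / (5 * E'))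
    ((N : ℚ) / (5 * ((4 * D * T ^ 2 * E' : ℤ) : ℚ))) hqne (by
      rw [hq, hN]
      push_cast
      field_simp
      ring)
  rw [hq] at h4
  have e1 : ((2 * Z + X : ℚ) / (2 * (5 * E')) - X / (5 * E')) =
      ((2 * Z - X : ℤ) : ℚ) / ((2 * (5 * E') : ℤ) : ℚ) := by
    push_cast
    field_simp
    ring
  have e2 : -((2 * Z + X : ℚ) / (2 * (5 * E'))) =
      ((-2 * Z - X : ℤ) : ℚ) / ((2 * (5 * E') : ℤ) : ℚ) := by
    push_cast
    field_simp
    ring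
  rw [e1, e2] at h4
  have h6 := congrArg g h4
  have e3 : -((D : ℚ) * (T / (5 * E')) ^ 2) ^ 3 =
      (-1) * ((D : ℚ) * ((D : ℚ) * (T / (5 * E')) ^ 3) ^ 2) := by ring
  rw [hg.mul, hg.mul, hg.mul, e3, hg.mul, hg.mul, hg.pow_two (by positivity), mul_one, hgD, hx, hy] at h6
  have hk2 : k * k = 1 := by
    rw [← hx]
    exact hg.sq _ hxp.ne'
  calc _ = (k * k) * (g (fc b c (((2 * Z - X : ℤ) : ℚ) / ((2 * (5 * E') : ℤ) : ℚ))) *
      g (fc b c (((-2 * Z - X : ℤ) : ℚ) / ((2 * (5 * E') : ℤ) : ℚ)))) := by rw [hk2, one_mul]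
    _ = k * (k * g (fc b c (((2 * Z - X : ℤ) : ℚ) / ((2 * (5 * E') : ℤ) : ℚ))) *
      g (fc b c (((-2 * Z - X : ℤ) : ℚ) / ((2 * (5 * E') : ℤ) : ℚ)))) := by ring
    _ = k * (-1 * k) := by rw [h6]
    _ = -(k * k) := by ring
    _ = -1 := by rw [hk2]

/-- The orbit of a solution under the fundamental unit. -/
def orb (D a e Z T : ℤ) : ℕ → ℤ × ℤ
  | 0 => (Z, T)
  | k + 1 => (a * (orb D a e Z T k).1 + D * e * (orb D a e Z T k).2,
      e * (orb D a e Z T k).1 + a * (orb D a e Z T k).2)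

theorem orb_facts (D a e Z T : ℤ) (hD : 0 < D) (ha : 2 ≤ a) (he : 1 ≤ e) (hp : a ^ 2 - D * e ^ 2 = 1)
    (hZ : 1 ≤ Z) (hT : 1 ≤ T) (k : ℕ) :
    Z ≤ (orb D a e Z T k).1 ∧ T ≤ (orb D a e Z T k).2 ∧
      (orb D a e Z T k).1 ^ 2 - D * (orb D a e Z T k).2 ^ 2 = Z ^ 2 - D * T ^ 2 ∧
      (orb D a e Z T k).1 + (orb D a e Z T k).2 ≤ (a + D * e) ^ k * (Z + T) ∧
      (orb D a e Z T k).1 < (orb D a e Z T (k + 1)).1 := by
  induction k with
  | zero =>
    refine ⟨le_rfl, le_rfl, rfl, by simp [orb], ?_⟩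
    change Z < a * Z + D * e * T
    have t1 : 0 < D * e * T := by positivity
    have t2 : 2 * Z ≤ a * Z := mul_le_mul_of_nonneg_right ha (by linarith)
    linarith
  | succ k ih =>
    obtain ⟨h1, h2, h3, h4, h5⟩ := ih
    obtain ⟨z, hz⟩ : ∃ z, z = (orb D a e Z T k).1 := ⟨_, rfl⟩
    obtain ⟨t, ht⟩ : ∃ t, t = (orb D a e Z T k).2 := ⟨_, rfl⟩
    have e1 : (orb D a e Z T (k + 1)).1 = a * z + D * e * t := by rw [hz, ht]; rfl
    have e2 : (orb D a e Z T (k + 1)).2 = e * z + a * t := by rw [hz, ht]; rfl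
    have e3 : (orb D a e Z T (k + 1 + 1)).1 =
        a * (orb D a e Z T (k + 1)).1 + D * e * (orb D a e Z T (k + 1)).2 := rfl
    rw [← hz, ← ht] at h3 h4
    rw [← hz] at h1 h5
    rw [← ht] at h2
    have hz1 : 1 ≤ z := by linarith
    have ht1 : 1 ≤ t := by linarith
    have t1 : 0 < D * e * t := by positivity
    have t2 : 2 * z ≤ a * z := mul_le_mul_of_nonneg_right ha (by linarith)
    have t3 : 0 < e * z := by positivity
    have t4 : 2 * t ≤ a * t := mul_le_mul_of_nonneg_right ha (by linarith)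
    rw [e3, e1, e2]
    refine ⟨by linarith, by linarith, ?_, ?_, ?_⟩
    · rw [← h3]
      have : (a * z + D * e * t) ^ 2 - D * (e * z + a * t) ^ 2 =
          (a ^ 2 - D * e ^ 2) * (z ^ 2 - D * t ^ 2) := by ring
      rw [this, hp, one_mul]
    · have h6 : (a * z + D * e * t) + (e * z + a * t) ≤ (a + D * e) * (z + t) := by
        have h7 : e * z ≤ D * e * z := by
          have : 0 ≤ (D - 1) * (e * z) := mul_nonneg (by linarith) t3.le
          linarith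
        nlinarith
      calc (a * z + D * e * t) + (e * z + a * t) ≤ (a + D * e) * (z + t) := h6
        _ ≤ (a + D * e) * ((a + D * e) ^ k * (Z + T)) := by
          apply mul_le_mul_of_nonneg_left h4
          positivity
        _ = (a + D * e) ^ (k + 1) * (Z + T) := by ring
    · have t5 : 2 * (a * z + D * e * t) ≤ a * (a * z + D * e * t) := by
        apply mul_le_mul_of_nonneg_right ha
        have : 0 ≤ a * z := by positivity
        linarith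
      have t6 : 0 < D * e * (e * z + a * t) := by positivity
      have t7 : 0 ≤ a * z := by positivity
      linarith

theorem case2_D {g : ℚ → ℤ} (hg : GMul g) {b c k : ℤ} (hc : 0 < c)
    (hA : ∀ r : ℚ, r ≠ 0 → fc (b : ℚ) c r ≠ 0 → 0 < (8 * (c : ℚ) - 4 * b * r - r ^ 3) / (12 * r) →
      ¬ IsSquare ((8 * (c : ℚ) - 4 * b * r - r ^ 3) / (12 * r)) → g (fc b c r) = k)
    (D α β : ℤ) (hD : 0 < D) (hDs : ¬ IsSquare D) (hD5 : ∀ t x : ℤ, (5 : ℤ) ∣ D * t ^ 2 - x ^ 2 → (5 : ℤ) ∣ x)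
    (hgD : g (-1) * g D = -1) (hα : 0 ≤ α) (hβ : 0 < β)
    (hβ5 : ¬ (5 : ℤ) ∣ β) (hαβ : 4 * α ^ 2 + 3 * β ^ 2 = 4 * D)
    (hh : ∀ ζ κ : ℤ, 1 ≤ κ → 0 ≤ ζ → ζ ^ 2 - D * κ ^ 2 = 1 → ∃ h, κ ≤ h ∧ 3 * h = D * κ - α * ζ)
    (s : ℤ) (hs : s = 1 ∨ s = -1) : Seq g b c s := by
  obtain ⟨X, E', Z0, T0, hX, hE, hZ0, hT0, hX5, hXE, hbX, hrel0⟩ :=
    start b D α β hD hDs hα hβ hβ5 hαβ hh
  obtain ⟨a, e, ha, he, hp⟩ := pell_large D hD hDs 2
  have ha2 : 2 ≤ a := by exact_mod_cast ha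
  have he1 : 1 ≤ e := by
    have : (2 : ℤ) ≤ e := by exact_mod_cast he
    linarith
  obtain ⟨Z1, T1, hB, hZ1, hT1, hrel1⟩ := orbit_large D a e Z0 T0 hD ha2 he1 hp hZ0 hT0
    (X + 4 * c * (5 * E') ^ 3 + 1).toNat
  have hB0 : 0 ≤ X + 4 * c * (5 * E') ^ 3 + 1 := by positivity
  rw [Int.toNat_of_nonneg hB0] at hB
  obtain ⟨z, hz⟩ : ∃ z : ℕ → ℤ, z = fun k => (orb D a e Z1 T1 k).1 := ⟨_, rfl⟩
  obtain ⟨t, ht⟩ : ∃ t : ℕ → ℤ, t = fun k => (orb D a e Z1 T1 k).2 := ⟨_, rfl⟩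
  have hfacts : ∀ k, Z1 ≤ z k ∧ T1 ≤ t k ∧ z k ^ 2 - D * t k ^ 2 = Z1 ^ 2 - D * T1 ^ 2 ∧
      z k + t k ≤ (a + D * e) ^ k * (Z1 + T1) ∧ z k < z (k + 1) := by
    intro k
    rw [hz, ht]
    exact orb_facts D a e Z1 T1 hD ha2 he1 hp hZ1 hT1 k
  have hmono : StrictMono z := strictMono_nat_of_lt_succ fun k => (hfacts k).2.2.2.2
  have hXz : ∀ k, X < z k := fun k => by
    have := (hfacts k).1
    have h2 : 0 < 4 * c * (5 * E') ^ 3 := by positivity
    linarith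
  -- opposite signs
  have hopp : ∀ k, g (fc b c (((2 * z k - X : ℤ) : ℚ) / ((2 * (5 * E') : ℤ) : ℚ))) *
      g (fc b c (((-2 * z k - X : ℤ) : ℚ) / ((2 * (5 * E') : ℤ) : ℚ))) = -1 := by
    intro k
    obtain ⟨f1, f2, f3, -, -⟩ := hfacts k
    apply opp hg hc hA D hD hD5 hgD hX hE (show 1 ≤ t k by linarith) hX5 hXE hbX
    · linear_combination hrel0 + 4 * hrel1 + 4 * f3
    · have h1 := hXz k
      have h2 : 0 < 4 * c * (5 * E') ^ 3 := by positivity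
      have h3 : 4 * c * (5 * E') ^ 3 < z k := by linarith
      have h4 : X ^ 2 ≤ z k ^ 2 := by nlinarith
      have h5 : z k ≤ z k ^ 2 := by nlinarith
      have h6 : 4 * c * (5 * E') ^ 3 < 4 * z k ^ 2 - X ^ 2 := by nlinarith
      have h7 : 1 * (4 * z k ^ 2 - X ^ 2) ≤ X * (4 * z k ^ 2 - X ^ 2) :=
        mul_le_mul_of_nonneg_right hX (by linarith)
      linarith
  obtain ⟨q, hq⟩ : ∃ q : ℕ, (q : ℤ) = 2 * (5 * E') :=
    ⟨(2 * (5 * E')).toNat, Int.toNat_of_nonneg (by positivity)⟩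
  have hq0 : 0 < q := by
    have : (0 : ℤ) < q := by rw [hq]; positivity
    exact_mod_cast this
  classical
  obtain ⟨n, hn⟩ : ∃ n : ℕ → ℤ, n = fun k =>
      if g (fc b c (((2 * z k - X : ℤ) : ℚ) / ((2 * (5 * E') : ℤ) : ℚ))) = s then 2 * z k - X
      else -2 * z k - X := ⟨_, rfl⟩
  have hn2 : ∀ k, n k = 2 * z k - X ∨ n k = -2 * z k - X := by
    intro k
    rw [hn]
    dsimp only
    split_ifs
    · exact Or.inl rfl
    · exact Or.inr rfl
  have hsgn : ∀ k, g (fc b c ((n k : ℚ) / q)) = s := by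
    intro k
    have hqc : (q : ℚ) = ((2 * (5 * E') : ℤ) : ℚ) := by
      rw [← hq]
      rfl
    rw [hqc, hn]
    dsimp only
    split_ifs with h
    · exact h
    · rcases Int.mul_eq_neg_one_iff_eq_one_or_neg_one.1 (hopp k) with ⟨h1, h2⟩ | ⟨h1, h2⟩
      · rw [h1] at h
        rw [h2]
        rcases hs with rfl | rfl
        · exact absurd rfl h
        · rfl
      · rw [h1] at h
        rw [h2]
        rcases hs with rfl | rfl
        · rfl
        · exact absurd rfl h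
  have hinj : Function.Injective n := by
    intro i j hij
    have h1 := hXz i
    have h2 := hXz j
    have h3 : z i = z j := by
      rcases hn2 i with h | h <;> rcases hn2 j with h' | h' <;> rw [h, h'] at hij <;> linarith
    exact hmono.injective h3
  refine ⟨q, hq0, (a + D * e + 2 * (Z1 + T1) + X).toNat, 1, n, ?_, ?_, hsgn⟩
  · intro k
    obtain ⟨f1, f2, f3, f4, -⟩ := hfacts k
    have hDe : 0 < D * e := by positivity
    have hC0 : 0 ≤ a + D * e + 2 * (Z1 + T1) + X := by linarith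
    rw [Int.toNat_of_nonneg hC0]
    have hle : |n k| ≤ 2 * z k + X := by
      rcases hn2 k with h | h
      · rw [h, abs_le]
        constructor <;> linarith
      · rw [h, abs_le]
        constructor <;> linarith
    have hu : 1 ≤ a + D * e := by linarith
    have hpow : 1 ≤ (a + D * e) ^ k := one_le_pow₀ hu
    have hpow2 : (a + D * e) ^ k ≤ (a + D * e + 2 * (Z1 + T1) + X) ^ k :=
      pow_le_pow_left₀ (by linarith) (by linarith) k
    calc |n k| ≤ 2 * z k + X := hle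
      _ ≤ 2 * ((a + D * e) ^ k * (Z1 + T1)) + (a + D * e) ^ k * X := by nlinarith
      _ = (a + D * e) ^ k * (2 * (Z1 + T1) + X) := by ring
      _ ≤ (a + D * e + 2 * (Z1 + T1) + X) ^ k * (a + D * e + 2 * (Z1 + T1) + X) := by
        apply mul_le_mul hpow2 (by linarith) (by linarith) (by positivity)
      _ = _ := by rw [pow_succ]
  · intro v N
    apply Finset.card_le_one.2
    intro i hi j hj
    rw [Finset.mem_filter] at hi hj
    exact hinj (hi.2.trans hj.2.symm)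

/-- If the sign is constant at all admissible arguments, then both signs occur. -/
theorem case2 {g : ℚ → ℤ} (hg : GMul g) (hlam : ∀ n : ℤ, 0 < n → g (n : ℚ) = lam n) {b c k : ℤ} (hc : 0 < c)
    (hA : ∀ r : ℚ, r ≠ 0 → fc (b : ℚ) c r ≠ 0 → 0 < (8 * (c : ℚ) - 4 * b * r - r ^ 3) / (12 * r) →
      ¬ IsSquare ((8 * (c : ℚ) - 4 * b * r - r ^ 3) / (12 * r)) → g (fc b c r) = k)
    (s : ℤ) (hs : s = 1 ∨ s = -1) : Seq g b c s := by
  have h3 : lam 3 = -1 := by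
    have := lam_prime (p := 3) (by norm_num)
    exact_mod_cast this
  have h19 : lam 19 = -1 := by
    have := lam_prime (p := 19) (by norm_num)
    exact_mod_cast this
  rcases mul_self_eq_one_iff.1 (hg.sq (-1) (by norm_num)) with h1 | h1
  · refine case2_D hg hc hA 3 0 2 (by norm_num) ?_ ?_ ?_ le_rfl (by norm_num) (by norm_num) (by norm_num)
      ?_ s hs
    · rintro ⟨z, hz⟩
      have h2 : z * z % 4 = 3 := by rw [← hz]; rfl
      have h4 : z % 4 = 0 ∨ z % 4 = 1 ∨ z % 4 = 2 ∨ z % 4 = 3 := by omega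
      rw [Int.mul_emod] at h2
      rcases h4 with h | h | h | h <;> rw [h] at h2 <;> norm_num at h2
    · intro t x h
      have h2 : (3 * t ^ 2 - x ^ 2) % 5 = 0 := Int.emod_eq_zero_of_dvd h
      have ht : t % 5 = 0 ∨ t % 5 = 1 ∨ t % 5 = 2 ∨ t % 5 = 3 ∨ t % 5 = 4 := by omega
      have hx : x % 5 = 0 ∨ x % 5 = 1 ∨ x % 5 = 2 ∨ x % 5 = 3 ∨ x % 5 = 4 := by omega
      rcases ht with ht | ht | ht | ht | ht <;> rcases hx with hx | hx | hx | hx | hx <;>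
        simp [Int.sub_emod, Int.mul_emod, pow_two, ht, hx] at h2 ⊢ <;> omega
    · rw [h1, hlam 3 (by norm_num), h3]
      norm_num
    · intro ζ κ hκ hζ hP
      exact ⟨κ, le_rfl, by ring⟩
  · refine case2_D hg hc hA 57 3 8 (by norm_num) ?_ ?_ ?_ (by norm_num) (by norm_num) (by norm_num)
      (by norm_num) ?_ s hs
    · rintro ⟨z, hz⟩
      have h2 : z * z % 5 = 2 := by rw [← hz]; rfl
      have h4 : z % 5 = 0 ∨ z % 5 = 1 ∨ z % 5 = 2 ∨ z % 5 = 3 ∨ z % 5 = 4 := by omega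
      rw [Int.mul_emod] at h2
      rcases h4 with h | h | h | h | h <;> rw [h] at h2 <;> norm_num at h2
    · intro t x h
      have h2 : (57 * t ^ 2 - x ^ 2) % 5 = 0 := Int.emod_eq_zero_of_dvd h
      have ht : t % 5 = 0 ∨ t % 5 = 1 ∨ t % 5 = 2 ∨ t % 5 = 3 ∨ t % 5 = 4 := by omega
      have hx : x % 5 = 0 ∨ x % 5 = 1 ∨ x % 5 = 2 ∨ x % 5 = 3 ∨ x % 5 = 4 := by omega
      rcases ht with ht | ht | ht | ht | ht <;> rcases hx with hx | hx | hx | hx | hx <;>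
        simp [Int.sub_emod, Int.mul_emod, pow_two, ht, hx] at h2 ⊢ <;> omega
    · rw [h1, hlam 57 (by norm_num), show (57 : ℤ) = 3 * 19 by norm_num, lam_mul, h3, h19]
      norm_num
    · intro ζ κ hκ hζ hP
      refine ⟨19 * κ - ζ, ?_, by ring⟩
      nlinarith

end Pool.Agent.Lib.MP_648c71_nt.AllCub
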