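import Pool.Agent.Lib.MP_648c71_nt.AC.Case2

/-!
# The seven-term orbit of an admissible argument
-/

set_option autoImplicit false

namespace Pool.Agent.Lib.MP_648c71_nt.AllCub

/-- A sequence with bounded denominators, at most exponential growth, each value taken at most twice, which
tends to infinity. -/
def Nice (W : ℕ → ℚ) : Prop :=
  BD W ∧ (∃ C : ℕ, ∀ k, |W k| ≤ (C : ℚ) ^ (k + 1)) ∧
    (∀ (v : ℚ) (N : ℕ), ((Finset.range N).filter (fun k => W k = v)).card ≤ 2) ∧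
    ∀ R : ℚ, ∃ k0, ∀ k, k0 ≤ k → R ≤ |W k|

/-- The same with injectivity. -/
def Base (V : ℕ → ℚ) : Prop :=
  BD V ∧ (∃ C : ℕ, ∀ k, |V k| ≤ (C : ℚ) ^ (k + 1)) ∧ Function.Injective V ∧
    ∀ R : ℚ, ∃ k0, ∀ k, k0 ≤ k → R ≤ |V k|

theorem growth_quad {V : ℕ → ℚ} (hV : ∃ C : ℕ, ∀ k, |V k| ≤ (C : ℚ) ^ (k + 1)) (α β γ : ℚ) :
    ∃ C : ℕ, ∀ k, |α * V k ^ 2 + β * V k + γ| ≤ (C : ℚ) ^ (k + 1) := by
  obtain ⟨C, hC⟩ := hV
  obtain ⟨A, hA⟩ := exists_nat_ge (|α| + |β| + |γ| + 1)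
  have hA1 : (1 : ℚ) ≤ A := by
    have h1 := abs_nonneg α
    have h2 := abs_nonneg β
    have h3 := abs_nonneg γ
    linarith
  refine ⟨A * (C + 1) ^ 2, fun k => ?_⟩
  obtain ⟨P, hP⟩ : ∃ P : ℚ, P = ((C : ℚ) + 1) ^ (k + 1) := ⟨_, rfl⟩
  have hC0 : (0 : ℚ) ≤ C := Nat.cast_nonneg C
  have hP1 : 1 ≤ P := by
    rw [hP]
    exact one_le_pow₀ (by linarith)
  have hVP : |V k| ≤ P := by
    refine (hC k).trans ?_
    rw [hP]
    exact pow_le_pow_left₀ hC0 (by linarith) _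
  have h2 : |α * V k ^ 2 + β * V k + γ| ≤ |α| * |V k| ^ 2 + |β| * |V k| + |γ| := by
    calc |α * V k ^ 2 + β * V k + γ| ≤ |α * V k ^ 2 + β * V k| + |γ| := abs_add_le _ _
      _ ≤ |α * V k ^ 2| + |β * V k| + |γ| := by
        have := abs_add_le (α * V k ^ 2) (β * V k)
        linarith
      _ = _ := by rw [abs_mul, abs_mul, abs_pow]
  have h3 : |V k| ^ 2 ≤ P ^ 2 := pow_le_pow_left₀ (abs_nonneg _) hVP 2
  have h4 : P ≤ P ^ 2 := by nlinarith
  have h5 : 1 ≤ P ^ 2 := by nlinarith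
  have h6 : |α| * |V k| ^ 2 + |β| * |V k| + |γ| ≤ A * P ^ 2 := by
    have i1 : |α| * |V k| ^ 2 ≤ |α| * P ^ 2 := mul_le_mul_of_nonneg_left h3 (abs_nonneg _)
    have i2 : |β| * |V k| ≤ |β| * P ^ 2 := mul_le_mul_of_nonneg_left (hVP.trans h4) (abs_nonneg _)
    have i3 : |γ| ≤ |γ| * P ^ 2 := le_mul_of_one_le_right (abs_nonneg _) h5
    have i4 : (|α| + |β| + |γ|) * P ^ 2 ≤ A * P ^ 2 :=
      mul_le_mul_of_nonneg_right (by linarith) (by positivity)
    linarith
  refine (h2.trans h6).trans ?_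
  push_cast
  rw [mul_pow, ← pow_mul, hP, ← pow_mul]
  have e : (k + 1) * 2 = 2 * (k + 1) := by ring
  rw [e]
  apply mul_le_mul_of_nonneg_right _ (by positivity)
  calc (A : ℚ) = A ^ 1 := (pow_one _).symm
    _ ≤ A ^ (k + 1) := pow_le_pow_right₀ hA1 (by omega)

theorem Base.quad {V : ℕ → ℚ} (hV : Base V) {α : ℚ} (hα : α ≠ 0) (β γ : ℚ) :
    Nice (fun k => α * V k ^ 2 + β * V k + γ) := by
  obtain ⟨h1, h2, h3, h4⟩ := hV
  refine ⟨(((BD.const α).mul (h1.pow 2)).add ((BD.const β).mul h1)).add (BD.const γ),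
    growth_quad h2 α β γ, ?_, ?_⟩
  · intro v N
    by_contra hcon
    push Not at hcon
    obtain ⟨i, hi, j, hj, l, hl, hij, hil, hjl⟩ := Finset.two_lt_card.1 hcon
    rw [Finset.mem_filter] at hi hj hl
    have e1 : (V i - V j) * (α * (V i + V j) + β) = 0 := by
      have a1 := hi.2
      have a2 := hj.2
      linear_combination a1 - a2
    have e2 : (V i - V l) * (α * (V i + V l) + β) = 0 := by
      have a1 := hi.2
      have a2 := hl.2
      linear_combination a1 - a2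
    have n1 : V i - V j ≠ 0 := fun h => hij (h3 (sub_eq_zero.1 h))
    have n2 : V i - V l ≠ 0 := fun h => hil (h3 (sub_eq_zero.1 h))
    have f1 := (mul_eq_zero.1 e1).resolve_left n1
    have f2 := (mul_eq_zero.1 e2).resolve_left n2
    have f3 : α * (V j - V l) = 0 := by linear_combination f1 - f2
    exact hjl (h3 (sub_eq_zero.1 ((mul_eq_zero.1 f3).resolve_left hα)))
  · intro R
    obtain ⟨T, hT⟩ := quad_large α β γ hα R
    obtain ⟨k0, hk0⟩ := h4 T
    exact ⟨k0, fun k hk => hT _ (hk0 k hk)⟩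

theorem Base.lin {V : ℕ → ℚ} (hV : Base V) {β : ℚ} (hβ : β ≠ 0) (γ : ℚ) :
    Nice (fun k => β * V k + γ) := by
  obtain ⟨h1, h2, h3, h4⟩ := hV
  refine ⟨((BD.const β).mul h1).add (BD.const γ), ?_, ?_, ?_⟩
  · obtain ⟨C, hC⟩ := growth_quad h2 0 β γ
    refine ⟨C, fun k => ?_⟩
    have := hC k
    simpa using this
  · intro v N
    refine (Finset.card_le_one.2 ?_).trans (by norm_num)
    intro i hi j hj
    rw [Finset.mem_filter] at hi hj
    have e : β * (V i - V j) = 0 := by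
      have a1 := hi.2
      have a2 := hj.2
      linear_combination a1 - a2
    exact h3 (sub_eq_zero.1 ((mul_eq_zero.1 e).resolve_left hβ))
  · intro R
    obtain ⟨k0, hk0⟩ := h4 ((|R| + |γ|) / |β|)
    refine ⟨k0, fun k hk => ?_⟩
    have h5 := hk0 k hk
    have hβ' : 0 < |β| := abs_pos.2 hβ
    rw [div_le_iff₀ hβ'] at h5
    have h6 : |β * V k| ≤ |β * V k + γ| + |γ| := by
      calc |β * V k| = |(β * V k + γ) - γ| := by congr 1; ring
        _ ≤ _ := abs_sub _ _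
    rw [abs_mul] at h6
    have h7 := le_abs_self R
    linarith

/-- The choice of one of the seven sequences. -/
theorem pick {g : ℚ → ℤ} {b c : ℚ} {s : ℤ} (W : Fin 7 → ℕ → ℚ) (hW : ∀ i, Nice (W i)) (k0 : ℕ)
    (h : ∀ k, k0 ≤ k → ∃ i, g (fc b c (W i k)) = s) : Seq g b c s := by
  choose N hN hden using fun i => (hW i).1
  choose C hC using fun i => (hW i).2.1
  obtain ⟨q, hq⟩ : ∃ q : ℕ, q = ∏ i, N i := ⟨_, rfl⟩
  have hq0 : 0 < q := by
    rw [hq]
    exact Finset.prod_pos fun i _ => hN i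
  have hqQ : (0 : ℚ) < q := by exact_mod_cast hq0
  have hint : ∀ i k, ∃ n : ℤ, W i k = n / q := by
    intro i k
    have h1 : (W i k).den ∣ q := (hden i k).trans (by
      rw [hq]
      exact Finset.dvd_prod_of_mem N (Finset.mem_univ i))
    obtain ⟨m, hm⟩ := h1
    refine ⟨(W i k).num * m, ?_⟩
    have h2 : ((W i k).den : ℚ) ≠ 0 := by exact_mod_cast (W i k).den_nz
    have h3 : (m : ℚ) ≠ 0 := by
      intro h0
      rw [hm] at hqQ
      push_cast at hqQ
      rw [h0, mul_zero] at hqQ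
      exact lt_irrefl _ hqQ
    rw [hm]
    push_cast
    rw [mul_div_mul_right _ _ h3]
    exact (Rat.num_div_den _).symm
  choose ν hν using hint
  choose ι hι using fun k => h (k + k0) (Nat.le_add_left k0 k)
  obtain ⟨C', hC'⟩ : ∃ C' : ℕ, C' = ∑ i, C i + 1 := ⟨_, rfl⟩
  refine ⟨q, hq0, q * C' ^ (k0 + 1), 14, fun k => ν (ι k) (k + k0), ?_, ?_, ?_⟩
  · intro k
    have h1 : ((ν (ι k) (k + k0) : ℤ) : ℚ) = W (ι k) (k + k0) * q := by
      rw [hν]
      field_simp
    have h2 : (C (ι k) : ℚ) ≤ C' := by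
      have : C (ι k) ≤ C' := by
        rw [hC']
        have := Finset.single_le_sum (f := C) (fun i _ => Nat.zero_le _) (Finset.mem_univ (ι k))
        omega
      exact_mod_cast this
    have hC1 : (1 : ℚ) ≤ C' := by
      have : 1 ≤ C' := by omega
      exact_mod_cast this
    have hq1 : (1 : ℚ) ≤ q := by exact_mod_cast hq0
    have h3 : |((ν (ι k) (k + k0) : ℤ) : ℚ)| ≤ ((q : ℚ) * C' ^ (k0 + 1)) ^ (k + 1) := by
      rw [h1, abs_mul, abs_of_pos hqQ, mul_pow, ← pow_mul]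
      have i1 : |W (ι k) (k + k0)| ≤ (C' : ℚ) ^ ((k0 + 1) * (k + 1)) := by
        refine (hC (ι k) (k + k0)).trans ?_
        refine (pow_le_pow_left₀ (Nat.cast_nonneg _) h2 _).trans ?_
        apply pow_le_pow_right₀ hC1
        nlinarith [Nat.zero_le (k0 * k)]
      have i2 : (q : ℚ) ≤ (q : ℚ) ^ (k + 1) := by
        calc (q : ℚ) = (q : ℚ) ^ 1 := (pow_one _).symm
          _ ≤ _ := pow_le_pow_right₀ hq1 (by omega)
      calc |W (ι k) (k + k0)| * q ≤ (C' : ℚ) ^ ((k0 + 1) * (k + 1)) * (q : ℚ) ^ (k + 1) :=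
            mul_le_mul i1 i2 hqQ.le (by positivity)
        _ = _ := mul_comm _ _
    exact_mod_cast h3
  · intro v M
    have hsub : (Finset.range M).filter (fun k => ν (ι k) (k + k0) = v) ⊆
        Finset.univ.biUnion (fun i => (Finset.range M).filter (fun k => W i (k + k0) = v / q)) := by
      intro k hk
      rw [Finset.mem_filter] at hk
      rw [Finset.mem_biUnion]
      refine ⟨ι k, Finset.mem_univ _, ?_⟩
      rw [Finset.mem_filter]
      refine ⟨hk.1, ?_⟩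
      rw [hν, hk.2]
    refine (Finset.card_le_card hsub).trans (Finset.card_biUnion_le.trans ?_)
    have h1 : ∀ i ∈ (Finset.univ : Finset (Fin 7)),
        ((Finset.range M).filter (fun k => W i (k + k0) = v / q)).card ≤ 2 := by
      intro i _
      refine le_trans ?_ ((hW i).2.2.1 (v / q) (M + k0))
      apply Finset.card_le_card_of_injOn (fun k => k + k0)
      · intro k hk
        rw [Finset.mem_coe, Finset.mem_filter, Finset.mem_range] at hk ⊢
        exact ⟨Nat.add_lt_add_right hk.1 k0, hk.2⟩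
      · intro i _ j _ hij
        exact Nat.add_right_cancel hij
    refine (Finset.sum_le_sum h1).trans ?_
    simp
  · intro k
    dsimp only
    rw [← hν]
    exact hι k

/-- the two coordinates of the orbit, multiplied by a constant -/
theorem base_orb {D a e Z T : ℤ} (hD : 0 < D) (ha : 2 ≤ a) (he : 1 ≤ e) (hp : a ^ 2 - D * e ^ 2 = 1)
    (hZ : 1 ≤ Z) (hT : 1 ≤ T) {μ : ℚ} (hμ : μ ≠ 0) :
    Base (fun k => μ * ((orb D a e Z T k).1 : ℚ)) ∧ Base (fun k => μ * ((orb D a e Z T k).2 : ℚ)) := by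
  have hf := orb_facts D a e Z T hD ha he hp hZ hT
  have hDe : 0 < D * e := by positivity
  have h1 : ∀ k, (1 : ℤ) ≤ (orb D a e Z T k).1 ∧ (1 : ℤ) ≤ (orb D a e Z T k).2 := fun k =>
    ⟨hZ.trans (hf k).1, hT.trans (hf k).2.1⟩
  have hlt : ∀ k, (orb D a e Z T k).2 < (orb D a e Z T (k + 1)).2 := by
    intro k
    have e2 : (orb D a e Z T (k + 1)).2 = e * (orb D a e Z T k).1 + a * (orb D a e Z T k).2 := rfl
    rw [e2]
    obtain ⟨p1, p2⟩ := h1 k
    have t3 : 0 < e * (orb D a e Z T k).1 := by positivity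
    have t4 : 2 * (orb D a e Z T k).2 ≤ a * (orb D a e Z T k).2 :=
      mul_le_mul_of_nonneg_right ha (by linarith)
    linarith
  have m1 : StrictMono (fun k => (orb D a e Z T k).1) := strictMono_nat_of_lt_succ fun k => (hf k).2.2.2.2
  have m2 : StrictMono (fun k => (orb D a e Z T k).2) := strictMono_nat_of_lt_succ hlt
  have hbound : ∀ k, (orb D a e Z T k).1 + (orb D a e Z T k).2 ≤ (a + D * e + (Z + T)) ^ (k + 1) := by
    intro k
    refine (hf k).2.2.2.1.trans ?_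
    rw [pow_succ]
    apply mul_le_mul
    · exact pow_le_pow_left₀ (by linarith) (by linarith) k
    · linarith
    · linarith
    · have : 0 < a + D * e + (Z + T) := by linarith
      positivity
  -- the general statement
  have key : ∀ t : ℕ → ℤ, StrictMono t → (∀ k, 1 ≤ t k) →
      (∀ k, t k ≤ (a + D * e + (Z + T)) ^ (k + 1)) → Base (fun k => μ * (t k : ℚ)) := by
    intro t ht ht1 htb
    have htk : ∀ k : ℕ, (k : ℤ) ≤ t k := by
      intro k
      induction k with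
      | zero => have := ht1 0; push_cast; linarith
      | succ k ih =>
        have := ht (Nat.lt_succ_self k)
        push_cast
        have h3 : t k < t (k + 1) := this
        linarith
    refine ⟨(BD.const μ).mul (BD.int t), ?_, ?_, ?_⟩
    · obtain ⟨A, hA⟩ := exists_nat_ge (|μ| + 1)
      have hA1 : (1 : ℚ) ≤ A := by
        have := abs_nonneg μ
        linarith
      refine ⟨A * (a + D * e + (Z + T)).toNat, fun k => ?_⟩
      have hB : (((a + D * e + (Z + T)).toNat : ℤ)) = a + D * e + (Z + T) :=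
        Int.toNat_of_nonneg (by linarith)
      have hBQ : (((a + D * e + (Z + T)).toNat : ℕ) : ℚ) = ((a + D * e + (Z + T) : ℤ) : ℚ) := by
        exact_mod_cast hB
      push_cast
      rw [hBQ, abs_mul, mul_pow]
      have i1 : |(t k : ℚ)| ≤ ((a + D * e + (Z + T) : ℤ) : ℚ) ^ (k + 1) := by
        rw [abs_of_nonneg (by
          have := ht1 k
          have h0 : (0 : ℤ) ≤ t k := by linarith
          exact_mod_cast h0)]
        exact_mod_cast htb k
      have i2 : |μ| ≤ (A : ℚ) ^ (k + 1) := by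
        calc |μ| ≤ A := by linarith
          _ = (A : ℚ) ^ 1 := (pow_one _).symm
          _ ≤ _ := pow_le_pow_right₀ hA1 (by omega)
      exact mul_le_mul i2 i1 (abs_nonneg _) (by positivity)
    · intro i j hij
      have h2 : (t i : ℚ) = t j := mul_left_cancel₀ hμ hij
      exact ht.injective (by exact_mod_cast h2)
    · intro R
      have hμ' : 0 < |μ| := abs_pos.2 hμ
      obtain ⟨k0, hk0⟩ := exists_nat_ge (R / |μ|)
      refine ⟨k0, fun k hk => ?_⟩
      have h3 : (k0 : ℚ) ≤ t k := by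
        have h4 : (k0 : ℤ) ≤ t k := le_trans (by exact_mod_cast hk) (htk k)
        exact_mod_cast h4
      have h5 : (0 : ℚ) ≤ t k := le_trans (Nat.cast_nonneg k0) h3
      rw [abs_mul, abs_of_nonneg h5]
      rw [div_le_iff₀ hμ'] at hk0
      nlinarith
  refine ⟨key _ m1 (fun k => (h1 k).1) fun k => ?_, key _ m2 (fun k => (h1 k).2) fun k => ?_⟩
  · have h2 := hbound k
    have h3 := (h1 k).2
    linarith
  · have h2 := hbound k
    have h3 := (h1 k).1
    linarith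

/-- `f` does not vanish at large arguments. -/
theorem fc_ne_large (b c : ℚ) {w : ℚ} (hw : 1 + |b| + |c| ≤ |w|) : fc b c w ≠ 0 := by
  intro h0
  unfold fc at h0
  have hb := abs_nonneg b
  have hc := abs_nonneg c
  have h1 : |w| ^ 3 ≤ |b| * |w| + |c| := by
    have e : w ^ 3 = -(b * w + c) := by linarith
    rw [← abs_pow, e, abs_neg]
    refine (abs_add_le _ _).trans ?_
    rw [abs_mul]
  have h2 : 1 ≤ |w| := by linarith
  have h3 : |w| ^ 2 ≥ |w| := by nlinarith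
  have h4 : |w| ^ 3 = |w| * |w| ^ 2 := by ring
  have h5 : (1 + |b| + |c|) * |w| ≤ |w| * |w| := mul_le_mul_of_nonneg_right hw (by linarith)
  have h6 : |c| ≤ |c| * |w| := le_mul_of_one_le_right hc h2
  nlinarith

/-- Among seven signs whose product is `s` one is equal to `s`. -/
theorem seven_sign {x1 x2 x3 x4 x5 x6 x7 s : ℤ} (h1 : x1 * x1 = 1) (h2 : x2 * x2 = 1) (h3 : x3 * x3 = 1)
    (h4 : x4 * x4 = 1) (h5 : x5 * x5 = 1) (h6 : x6 * x6 = 1) (h7 : x7 * x7 = 1) (hs : s * s = 1)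
    (h : x1 * x2 * x4 * x5 = s * (x6 * x7 * x3)) :
    x1 = s ∨ x2 = s ∨ x3 = s ∨ x4 = s ∨ x5 = s ∨ x6 = s ∨ x7 = s := by
  rcases mul_self_eq_one_iff.1 h1 with rfl | rfl <;> rcases mul_self_eq_one_iff.1 h2 with rfl | rfl <;>
    rcases mul_self_eq_one_iff.1 h3 with rfl | rfl <;> rcases mul_self_eq_one_iff.1 h4 with rfl | rfl <;>
    rcases mul_self_eq_one_iff.1 h5 with rfl | rfl <;> rcases mul_self_eq_one_iff.1 h6 with rfl | rfl <;>
    rcases mul_self_eq_one_iff.1 h7 with rfl | rfl <;> rcases mul_self_eq_one_iff.1 hs with rfl | rfl <;>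
    omega

/-- The orbit of `u`, `r = -2u`. -/
theorem orbit_u {g : ℚ → ℤ} (hg : GMul g) {b c : ℚ} (u : ℚ) (hu : u ≠ 0)
    (hf2 : fc b c (-2 * u) ≠ 0) (hm : 0 < -fc b c u / (3 * u))
    (hns : ¬ IsSquare (-fc b c u / (3 * u))) : Seq g b c (g (-1) * g (fc b c (-2 * u))) := by
  obtain ⟨m, hmd⟩ : ∃ m, m = -fc b c u / (3 * u) := ⟨_, rfl⟩
  rw [← hmd] at hm hns
  have hfu : fc b c u ≠ 0 := by
    intro h0
    rw [h0] at hmd
    simp at hmd
    exact hm.ne' hmd
  have hkap : m + (3 * u ^ 2 + b) ≠ 0 := by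
    intro h0
    apply hf2
    have h1 : m * (3 * u) = -fc b c u := by
      rw [hmd]
      field_simp
    unfold fc at h1 ⊢
    have h2 : m = -(3 * u ^ 2 + b) := by linarith
    rw [h2] at h1
    linear_combination h1
  obtain ⟨q, hq⟩ : ∃ q, q = m + (3 * u ^ 2 + b) := ⟨_, rfl⟩
  rw [← hq] at hkap
  -- the parametrisation
  have hden : (m.den : ℤ) ≠ 0 := by exact_mod_cast m.den_nz
  have hdenq : (m.den : ℚ) ≠ 0 := by exact_mod_cast m.den_nz
  have hnum : 0 < m.num := Rat.num_pos.2 hm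
  have hd : 0 < m.num * m.den := mul_pos hnum (by exact_mod_cast m.den_pos)
  have hmm : m = (m.num : ℚ) / m.den := (Rat.num_div_den m).symm
  have hdns : ¬ IsSquare (m.num * m.den) := by
    rintro ⟨z, hz⟩
    apply hns
    refine ⟨(z : ℚ) / m.den, ?_⟩
    have hz' : (m.num : ℚ) * m.den = z * z := by exact_mod_cast hz
    have : m = ((m.num : ℚ) * m.den) / (m.den * m.den) := by
      conv_lhs => rw [hmm]
      field_simp
    calc m = ((m.num : ℚ) * m.den) / (m.den * m.den) := this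
      _ = (z * z : ℚ) / (m.den * m.den) := by rw [hz']
      _ = _ := by rw [div_mul_div_comm]
  obtain ⟨a, e, ha, he, hp⟩ := pell_large _ hd hdns 2
  have ha2 : 2 ≤ a := by exact_mod_cast ha
  have he1 : 1 ≤ e := by
    have : (2 : ℤ) ≤ e := by exact_mod_cast he
    linarith
  have ha1 : 1 ≤ a := by linarith
  obtain ⟨x, hx⟩ : ∃ x : ℕ → ℤ, x = fun k => (orb (m.num * m.den) a e a e k).1 := ⟨_, rfl⟩
  obtain ⟨y, hy⟩ : ∃ y : ℕ → ℤ, y = fun k => (orb (m.num * m.den) a e a e k).2 := ⟨_, rfl⟩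
  have hxy : ∀ k, x k ^ 2 - m.num * m.den * y k ^ 2 = 1 := by
    intro k
    rw [hx, hy, ← hp]
    exact (orb_facts (m.num * m.den) a e a e hd ha2 he1 hp ha1 he1 k).2.2.1
  obtain ⟨XX, hXX⟩ : ∃ XX : ℕ → ℚ, XX = fun k => q * (x k : ℚ) := ⟨_, rfl⟩
  obtain ⟨VV, hVV⟩ : ∃ VV : ℕ → ℚ, VV = fun k => q * m.den / 2 * (y k : ℚ) := ⟨_, rfl⟩
  have bX : Base XX := by
    rw [hXX, hx]
    exact (base_orb hd ha2 he1 hp ha1 he1 hkap).1
  have hqm : q * m.den / 2 ≠ 0 := div_ne_zero (mul_ne_zero hkap hdenq) (by norm_num)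
  have bV : Base VV := by
    rw [hVV, hy]
    exact (base_orb hd ha2 he1 hp ha1 he1 hqm).2
  have bV2 : Base (fun k => VV k ^ 2) := by
    obtain ⟨v1, v2, v3, v4⟩ := bV
    refine ⟨v1.pow 2, ?_, ?_, ?_⟩
    · have := growth_quad v2 1 0 0
      simpa using this
    · intro i j hij
      have h2 : VV i ^ 2 = VV j ^ 2 := hij
      rw [hVV] at h2
      dsimp only at h2
      rw [mul_pow, mul_pow] at h2
      have h3 : (y i : ℚ) ^ 2 = (y j : ℚ) ^ 2 := mul_left_cancel₀ (pow_ne_zero 2 hqm) h2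
      have h4 : y i ^ 2 = y j ^ 2 := by exact_mod_cast h3
      have hyi : 1 ≤ y i := by
        rw [hy]
        exact he1.trans (orb_facts (m.num * m.den) a e a e hd ha2 he1 hp ha1 he1 i).2.1
      have hyj : 1 ≤ y j := by
        rw [hy]
        exact he1.trans (orb_facts (m.num * m.den) a e a e hd ha2 he1 hp ha1 he1 j).2.1
      have h5 : y i = y j := by
        have := abs_eq_abs.2 (sq_eq_sq_iff_eq_or_eq_neg.1 h4)
        rwa [abs_of_nonneg (by linarith), abs_of_nonneg (by linarith)] at this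
      apply v3
      rw [hVV]
      dsimp only
      rw [h5]
    · intro R
      obtain ⟨k0, hk0⟩ := v4 (|R| + 1)
      refine ⟨k0, fun k hk => ?_⟩
      have h1 := hk0 k hk
      have h2 := abs_nonneg R
      have h3 := le_abs_self R
      rw [abs_pow]
      nlinarith
  -- the seven sequences
  obtain ⟨Y1, hY1⟩ : ∃ Y1 : ℕ → ℚ, Y1 = fun k =>
    ((XX k + m + b - u ^ 2) / 2 * (b - u ^ 2 - (XX k + m + b - u ^ 2) / 2) - 2 * u * c) / fc b c u := ⟨_, rfl⟩
  obtain ⟨Y2, hY2⟩ : ∃ Y2 : ℕ → ℚ, Y2 = fun k =>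
    (((XX k + m + b - u ^ 2) / 2 - m) * (b - u ^ 2 - (XX k + m + b - u ^ 2) / 2 + m) - 2 * u * c) /
      fc b c u := ⟨_, rfl⟩
  obtain ⟨Y3, hY3⟩ : ∃ Y3 : ℕ → ℚ, Y3 = fun k =>
    ((b - 5 * u ^ 2 + VV k ^ 2) * (u ^ 2 - VV k ^ 2) + 4 * u * c) / fc b c (-2 * u) := ⟨_, rfl⟩
  have n1 : Nice Y1 := by
    have h := bX.quad (α := -(1 / (4 * fc b c u))) (neg_ne_zero.2 (one_div_ne_zero
      (mul_ne_zero (by norm_num) hfu))) (-(m / 2) / fc b c u)
      (((m + b - u ^ 2) * (b - u ^ 2 - m) / 4 - 2 * u * c) / fc b c u)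
    convert h using 1
    rw [hY1]
    funext k
    field_simp
    ring
  have n2 : Nice Y2 := by
    have h := bX.quad (α := -(1 / (4 * fc b c u))) (neg_ne_zero.2 (one_div_ne_zero
      (mul_ne_zero (by norm_num) hfu))) ((m / 2) / fc b c u)
      (((-m + b - u ^ 2) * (b - u ^ 2 + m) / 4 - 2 * u * c) / fc b c u)
    convert h using 1
    rw [hY2]
    funext k
    field_simp
    ring
  have n3 : Nice Y3 := by
    have h := bV2.quad (α := -(1 / fc b c (-2 * u))) (neg_ne_zero.2 (one_div_ne_zero hf2))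
      ((u ^ 2 - (b - 5 * u ^ 2)) / fc b c (-2 * u))
      (((b - 5 * u ^ 2) * u ^ 2 + 4 * u * c) / fc b c (-2 * u))
    convert h using 1
    rw [hY3]
    funext k
    field_simp
    ring
  have n4 : Nice (fun k => u + VV k) := by
    have h := bV.lin (β := 1) one_ne_zero u
    convert h using 1
    funext k
    ring
  have n5 : Nice (fun k => u - VV k) := by
    have h := bV.lin (β := -1) (by norm_num) u
    convert h using 1
    funext k
    ring
  have n6 : Nice (fun k => VV k - 2 * u) := by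
    have h := bV.lin (β := 1) one_ne_zero (-(2 * u))
    convert h using 1
    funext k
    ring
  have n7 : Nice (fun k => -VV k - 2 * u) := by
    have h := bV.lin (β := -1) (by norm_num) (-(2 * u))
    convert h using 1
    funext k
    ring
  obtain ⟨W, hW⟩ : ∃ W : Fin 7 → ℕ → ℚ, W = ![Y1, Y2, Y3, fun k => u + VV k, fun k => u - VV k,
    fun k => VV k - 2 * u, fun k => -VV k - 2 * u] := ⟨_, rfl⟩
  have w0 : W 0 = Y1 := by rw [hW]; rfl
  have w1 : W 1 = Y2 := by rw [hW]; rfl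
  have w2 : W 2 = Y3 := by rw [hW]; rfl
  have w3 : W 3 = fun k => u + VV k := by rw [hW]; rfl
  have w4 : W 4 = fun k => u - VV k := by rw [hW]; rfl
  have w5 : W 5 = fun k => VV k - 2 * u := by rw [hW]; rfl
  have w6 : W 6 = fun k => -VV k - 2 * u := by rw [hW]; rfl
  have hnice : ∀ i, Nice (W i) := by
    intro i
    fin_cases i
    · exact w0 ▸ n1
    · exact w1 ▸ n2
    · exact w2 ▸ n3
    · exact w3 ▸ n4
    · exact w4 ▸ n5
    · exact w5 ▸ n6
    · exact w6 ▸ n7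
  choose κ0 hκ0 using fun i => (hnice i).2.2.2 (1 + |b| + |c|)
  apply pick W hnice (∑ i, κ0 i)
  intro k hk
  have hne : ∀ i, fc b c (W i k) ≠ 0 := fun i =>
    fc_ne_large b c (hκ0 i k ((Finset.single_le_sum (f := κ0) (fun _ _ => Nat.zero_le _)
      (Finset.mem_univ i)).trans hk))
  have hX : XX k ^ 2 - 4 * m * VV k ^ 2 = (m + (3 * u ^ 2 + b)) ^ 2 := by
    rw [← hq, hXX, hVV]
    dsimp only
    have hxy' : (x k : ℚ) ^ 2 - (m.num : ℚ) * m.den * (y k : ℚ) ^ 2 = 1 := by exact_mod_cast hxy k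
    have e1 : m * m.den = m.num := by
      rw [Rat.mul_den_eq_num]
    have e2 : (q * (x k : ℚ)) ^ 2 - 4 * m * (q * m.den / 2 * (y k : ℚ)) ^ 2 =
        q ^ 2 * ((x k : ℚ) ^ 2 - (m * m.den) * m.den * (y k : ℚ) ^ 2) := by ring
    rw [e2, e1, hxy', mul_one]
  have key := seven_term b c u (VV k) (XX k) (by norm_num) (by norm_num) hu hfu hf2 m hmd hX
    ((XX k + m + b - u ^ 2) / 2) (Y1 k) (Y2 k) (Y3 k) rfl (by rw [hY1]) (by rw [hY2]) (by rw [hY3])
  have G := congrArg g key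
  have hm0 : m ≠ 0 := hm.ne'
  have p1 : g (fc b c u ^ 6) = 1 := by
    rw [show fc b c u ^ 6 = (fc b c u ^ 3) ^ 2 by ring]
    exact hg.pow_two (pow_ne_zero 3 hfu)
  have p2 : g (-m ^ 6) = g (-1) := by
    rw [show -m ^ 6 = -1 * (m ^ 3) ^ 2 by ring, hg.mul, hg.pow_two (pow_ne_zero 3 hm0), mul_one]
  have p3 : g (fc b c (-2 * u) ^ 3) = g (fc b c (-2 * u)) := by
    rw [show fc b c (-2 * u) ^ 3 = fc b c (-2 * u) * fc b c (-2 * u) ^ 2 by ring, hg.mul,
      hg.pow_two hf2, mul_one]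
  rw [hg.mul, hg.mul, hg.mul, hg.mul, hg.mul, hg.mul, hg.mul, hg.mul, p1, p2, p3, one_mul] at G
  have hs2 : (g (-1) * g (fc b c (-2 * u))) * (g (-1) * g (fc b c (-2 * u))) = 1 := by
    calc _ = (g (-1) * g (-1)) * (g (fc b c (-2 * u)) * g (fc b c (-2 * u))) := by ring
      _ = 1 := by rw [hg.sq _ (by norm_num), hg.sq _ hf2, one_mul]
  have q0 := hne 0
  have q1 := hne 1
  have q2 := hne 2
  have q3 := hne 3
  have q4 := hne 4
  have q5 := hne 5
  have q6 := hne 6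
  rw [w0] at q0
  rw [w1] at q1
  rw [w2] at q2
  rw [w3] at q3
  rw [w4] at q4
  rw [w5] at q5
  rw [w6] at q6
  rcases seven_sign (hg.sq _ q0) (hg.sq _ q1) (hg.sq _ q2) (hg.sq _ q3) (hg.sq _ q4) (hg.sq _ q5)
    (hg.sq _ q6) hs2 (by rw [G]; ring) with h | h | h | h | h | h | h
  · exact ⟨0, by rw [w0]; exact h⟩
  · exact ⟨1, by rw [w1]; exact h⟩
  · exact ⟨2, by rw [w2]; exact h⟩
  · exact ⟨3, by rw [w3]; exact h⟩
  · exact ⟨4, by rw [w4]; exact h⟩
  · exact ⟨5, by rw [w5]; exact h⟩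
  · exact ⟨6, by rw [w6]; exact h⟩

/-- The orbit of an admissible argument `r`. -/
theorem orbit_seq {g : ℚ → ℤ} (hg : GMul g) {b c : ℚ} (r : ℚ) (hr : r ≠ 0)
    (hf : fc b c r ≠ 0) (hm : 0 < (8 * c - 4 * b * r - r ^ 3) / (12 * r))
    (hns : ¬ IsSquare ((8 * c - 4 * b * r - r ^ 3) / (12 * r))) : Seq g b c (g (-1) * g (fc b c r)) := by
  have hu : (-r / 2) ≠ 0 := by
    intro h0
    apply hr
    linarith
  have e1 : -2 * (-r / 2) = r := by ring
  have e2 : -fc b c (-r / 2) / (3 * (-r / 2)) = (8 * c - 4 * b * r - r ^ 3) / (12 * r) := by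
    unfold fc
    field_simp
    ring
  have := orbit_u hg (b := b) (c := c) (-r / 2) hu (by rw [e1]; exact hf) (by rw [e2]; exact hm)
    (by rw [e2]; exact hns)
  rw [e1] at this
  exact this

open Pool.Agent.Lib.MP_648c71_nt in
/-- Both signs occur, for positive `c`. -/
theorem seq_pos {g : ℚ → ℤ} (hg : GMul g) (hlam : ∀ n : ℤ, 0 < n → g (n : ℚ) = lam n) {b c : ℤ} (hc : 0 < c)
    (s : ℤ) (hs : s = 1 ∨ s = -1) : Seq g b c s := by
  by_cases h : ∃ r : ℚ, r ≠ 0 ∧ fc (b : ℚ) c r ≠ 0 ∧ 0 < (8 * (c : ℚ) - 4 * b * r - r ^ 3) / (12 * r) ∧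
      ¬ IsSquare ((8 * (c : ℚ) - 4 * b * r - r ^ 3) / (12 * r)) ∧ g (-1) * g (fc b c r) = s
  · obtain ⟨r, h1, h2, h3, h4, h5⟩ := h
    rw [← h5]
    exact orbit_seq hg r h1 h2 h3 h4
  · push Not at h
    refine case2 hg hlam hc (k := -(g (-1) * s)) ?_ s hs
    intro r h1 h2 h3 h4
    have h5 := h r h1 h2 h3 h4
    have h6 : g (-1) * g (-1) = 1 := hg.sq _ (by norm_num)
    have h7 := hg.sq _ h2
    rcases mul_self_eq_one_iff.1 h6 with h8 | h8 <;> rcases mul_self_eq_one_iff.1 h7 with h9 | h9 <;>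
      rcases hs with rfl | rfl <;> simp [h8, h9] at h5 ⊢

end Pool.Agent.Lib.MP_648c71_nt.AllCub
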