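import Pool.Agent.Lib.MP_648c71_nt.AC.A

/-!
# Arguments of at most exponential growth with a given sign
-/

set_option autoImplicit false

namespace Pool.Agent.Lib.MP_648c71_nt.AllCub

/-- There are integers `n 0, n 1, ...` of at most exponential growth, each value taken at most `K` times,
such that `g (f (n k / q)) = s` for all `k`, `f = T^3 + b T + c`. -/
def Seq (g : ℚ → ℤ) (b c : ℚ) (s : ℤ) : Prop :=
  ∃ q : ℕ, 0 < q ∧ ∃ (C K : ℕ) (n : ℕ → ℤ), (∀ k, |n k| ≤ (C : ℤ) ^ (k + 1)) ∧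
    (∀ (v : ℤ) (N : ℕ), ((Finset.range N).filter (fun k => n k = v)).card ≤ K) ∧
    ∀ k, g (fc b c ((n k : ℚ) / q)) = s

end Pool.Agent.Lib.MP_648c71_nt.AllCub
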